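import Pool.Agent.R751.MB.Apc
import Pool.Agent.R751.MB.Ten

/-!
# From the weight to the uniform measure
-/

set_option autoImplicit false

namespace Pool.Agent.V7H40.TR

open MeasureTheory
open scoped ENNReal InnerProductSpace
open Pool.Agent.R751.MB (Eu EW VW Adm LCn AP norm_le)

/-- all linear images -/
theorem poi_of_ap {n : ℕ} {A : ℝ} (hA : 0 ≤ A) {w : Eu (Fin n) → ℝ} (h : AP A w) {k : ℕ}
    (T : Eu (Fin n) →ₗ[ℝ] Eu (Fin k)) {s : ℝ} (hs : 0 < s)
    (hT : ∀ θ : Eu (Fin k), ‖θ‖ = 1 → VW w (fun x => ⟪T x, θ⟫_ℝ) ≤ s) {v : Eu (Fin k) → ℝ}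
    (hv : ContDiff ℝ 1 v) {B L : ℝ} (hB : ∀ y, |v y| ≤ B) (hL : ∀ y, ‖fderiv ℝ v y‖ ≤ L) :
    VW w (fun x => v (T x)) ≤ A * s * EW w (fun x => ‖fderiv ℝ v (T x)‖ ^ 2) := by
  obtain ⟨S, hS, hP⟩ := h.poi
  obtain ⟨T', hT'⟩ : ∃ T' : Eu (Fin n) →L[ℝ] Eu (Fin k), T' = LinearMap.toContinuousLinearMap T :=
    ⟨_, rfl⟩
  have hTx : ∀ x, T x = T' x := fun x => by rw [hT']; rfl
  have hn := norm_le w S hS T' s hs (fun θ hθ => by
    have := hT θ hθ
    simp only [hTx] at this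
    exact this)
  obtain ⟨U, hU⟩ : ∃ U : Eu (Fin n) →L[ℝ] Eu (Fin k),
    U = T'.comp (S.symm : Eu (Fin n) →L[ℝ] Eu (Fin n)) := ⟨_, rfl⟩
  rw [← hU] at hn
  have e1 : ∀ x, U (S x) = T x := by
    intro x
    rw [hTx, hU]
    simp
  have hd : ∀ x, ‖fderiv ℝ (fun x => v (U x)) x‖ ≤ ‖fderiv ℝ v (U x)‖ * Real.sqrt s := by
    intro x
    have h3 : HasFDerivAt v (fderiv ℝ v (U x)) (U x) :=
      (hv.differentiable one_ne_zero _).hasFDerivAt
    have h4 : HasFDerivAt (fun x => v (U x)) ((fderiv ℝ v (U x)).comp U) x :=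
      HasFDerivAt.comp x h3 U.hasFDerivAt
    rw [h4.fderiv]
    exact (ContinuousLinearMap.opNorm_comp_le _ _).trans
      (mul_le_mul_of_nonneg_left hn (norm_nonneg _))
  have hg : ContDiff ℝ 1 fun x => v (U x) := hv.comp U.contDiff
  have key := hP _ hg ⟨B, fun x => hB _⟩ ⟨L * Real.sqrt s, fun x =>
    (hd x).trans (mul_le_mul_of_nonneg_right (hL _) (Real.sqrt_nonneg _))⟩
  simp only [e1] at key
  refine key.trans ?_
  rw [mul_assoc]
  refine mul_le_mul_of_nonneg_left ?_ hA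
  have hb : ∀ f : Eu (Fin n) → ℝ, Continuous f → (∃ C, ∀ x, |f x| ≤ C) →
      Integrable fun x => f x * w x := by
    rintro f hf ⟨C, hC⟩
    refine Integrable.mono' (h.adm.int.const_mul C)
      (hf.measurable.mul h.adm.meas).aestronglyMeasurable (Filter.Eventually.of_forall fun x => ?_)
    have hw0 := h.adm.nonneg x
    have hB0 : 0 ≤ C := (abs_nonneg _).trans (hC x)
    rw [norm_mul, Real.norm_eq_abs, Real.norm_of_nonneg hw0]
    calc |f x| * w x ≤ C * w x := mul_le_mul_of_nonneg_right (hC x) hw0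
      _ ≤ C * ((1 + ‖x‖ ^ 2) * w x) := by
          refine mul_le_mul_of_nonneg_left ?_ hB0
          nlinarith [mul_nonneg (sq_nonneg ‖x‖) hw0]
  unfold EW
  rw [← mul_div_assoc, ← integral_const_mul]
  refine div_le_div_of_nonneg_right ?_ h.adm.pos.le
  have hL0 : 0 ≤ L := (norm_nonneg _).trans (hL 0)
  refine integral_mono ?_ ?_ fun x => ?_
  · refine hb (fun x => ‖fderiv ℝ (fun x => v (U x)) (S x)‖ ^ 2) ?_
      ⟨(L * Real.sqrt s) ^ 2, fun x => ?_⟩
    · exact ((hg.continuous_fderiv one_ne_zero).comp S.continuous).norm.pow 2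
    · rw [abs_of_nonneg (by positivity)]
      refine pow_le_pow_left₀ (norm_nonneg _) ((hd _).trans
        (mul_le_mul_of_nonneg_right (hL _) (Real.sqrt_nonneg _))) 2
  · refine (hb (fun x => ‖fderiv ℝ v (T x)‖ ^ 2) ?_ ⟨L ^ 2, fun x => ?_⟩).const_mul s
    · have h5 : Continuous fun x => fderiv ℝ v (T' x) :=
        (hv.continuous_fderiv one_ne_zero).comp T'.continuous
      have h6 : (fun x => ‖fderiv ℝ v (T x)‖ ^ 2) = fun x => ‖fderiv ℝ v (T' x)‖ ^ 2 := by
        funext x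
        rw [hTx]
      rw [h6]
      exact h5.norm.pow 2
    · rw [abs_of_nonneg (by positivity)]
      exact pow_le_pow_left₀ (norm_nonneg _) (hL _) 2
  · simp only
    rw [← mul_assoc]
    refine mul_le_mul_of_nonneg_right ?_ (h.adm.nonneg x)
    have h5 := hd (S x)
    rw [e1] at h5
    calc ‖fderiv ℝ (fun x => v (U x)) (S x)‖ ^ 2 ≤ (‖fderiv ℝ v (T x)‖ * Real.sqrt s) ^ 2 :=
          pow_le_pow_left₀ (norm_nonneg _) h5 2
      _ = s * ‖fderiv ℝ v (T x)‖ ^ 2 := by
          rw [mul_pow, Real.sq_sqrt hs.le]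
          ring

/-- the uniform probability measure -/
noncomputable def un {n : ℕ} (K : Set (Eu (Fin n))) : Measure (Eu (Fin n)) :=
  (volume K)⁻¹ • volume.restrict K

/-- indicator function -/
noncomputable def iW {n : ℕ} (K : Set (Eu (Fin n))) : Eu (Fin n) → ℝ := K.indicator fun _ => 1

theorem int_iW {n : ℕ} {K : Set (Eu (Fin n))} (hK : MeasurableSet K) (g : Eu (Fin n) → ℝ) :
    ∫ x, g x * iW K x = ∫ x in K, g x := by
  rw [← integral_indicator hK]
  congr 1
  funext x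
  unfold iW
  by_cases hx : x ∈ K
  · rw [Set.indicator_of_mem hx, Set.indicator_of_mem hx, mul_one]
  · rw [Set.indicator_of_notMem hx, Set.indicator_of_notMem hx, mul_zero]

theorem int_un {n : ℕ} {K : Set (Eu (Fin n))} (hK : MeasurableSet K) (g : Eu (Fin n) → ℝ) :
    ∫ x, g x ∂(un K) = EW (iW K) g := by
  unfold un EW
  have h1 : ∫ x, iW K x = (volume K).toReal := by
    have h2 := int_iW hK fun _ => 1
    simp only [one_mul] at h2
    rw [h2]
    simp [measureReal_def]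
  rw [integral_smul_measure, h1, int_iW hK, ENNReal.toReal_inv, smul_eq_mul, div_eq_inv_mul]

theorem var_un {n : ℕ} {K : Set (Eu (Fin n))} (hK : IsCompact K) (hv : volume K ≠ 0)
    {g : Eu (Fin n) → ℝ} (hg : Continuous g) :
    ProbabilityTheory.variance g (un K) = VW (iW K) g := by
  have hm := hK.isClosed.measurableSet
  have hp : IsProbabilityMeasure (un K) := by
    constructor
    unfold un
    rw [Measure.smul_apply, Measure.restrict_apply_univ, smul_eq_mul,
      ENNReal.inv_mul_cancel hv hK.measure_lt_top.ne]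
  obtain ⟨B, hB⟩ := hK.exists_bound_of_continuousOn (f := g) hg.continuousOn
  have h2 : MemLp g 2 (un K) := by
    refine MemLp.of_bound hg.aestronglyMeasurable B ?_
    unfold un
    refine Measure.ae_smul_measure ?_ _
    rw [ae_restrict_iff' hm]
    exact Filter.Eventually.of_forall hB
  rw [ProbabilityTheory.variance_eq_sub h2]
  unfold VW
  have h3 : ∫ x, (g ^ 2) x ∂(un K) = EW (iW K) fun x => g x ^ 2 := int_un hm _
  rw [h3, int_un hm]

/-- the Poincare inequality for the uniform measure -/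
theorem poi_un {n : ℕ} {A : ℝ} (hA : 0 ≤ A) {K : Set (Eu (Fin n))} (hK : IsCompact K)
    (hv : volume K ≠ 0) (h : AP A (iW K)) {k : ℕ}
    (T : Eu (Fin n) →ₗ[ℝ] Eu (Fin k)) {s : ℝ} (hs : 0 < s)
    (hT : ∀ θ : Eu (Fin k), ‖θ‖ = 1 →
      ProbabilityTheory.variance (fun x => ⟪T x, θ⟫_ℝ) (un K) ≤ s) {v : Eu (Fin k) → ℝ}
    (hc : ContDiff ℝ 1 v) {B L : ℝ} (hB : ∀ y, |v y| ≤ B) (hL : ∀ y, ‖fderiv ℝ v y‖ ≤ L) :
    ProbabilityTheory.variance (fun x => v (T x)) (un K) ≤
      A * s * ∫ x, ‖fderiv ℝ v (T x)‖ ^ 2 ∂(un K) := by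
  have hTc : Continuous T := LinearMap.continuous_of_finiteDimensional T
  rw [var_un (g := fun x => v (T x)) hK hv (hc.continuous.comp hTc),
    int_un hK.isClosed.measurableSet]
  refine poi_of_ap hA h T hs (fun θ hθ => ?_) hc hB hL
  have h1 := hT θ hθ
  rwa [var_un hK hv (hTc.inner continuous_const)] at h1

end Pool.Agent.V7H40.TR
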