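import Pool.Agent.V7H40.TR.Ap
import Pool.Agent.V7H40.TR.Poi
import Pool.Agent.R751.MB.All
import Pool.Agent.N273.KM.CPA

/-!
# Trees: the Poincare inequality in isotropic position, products
-/

set_option autoImplicit false

namespace Pool.Agent.V7H40.TR

open Finset Real MeasureTheory
open scoped ENNReal InnerProductSpace
open Pool.Agent.R751.MB (Eu EW VW Adm LCn AP S_SYM ten)

/-- the body of a tree -/
theorem ap_tree (D : ℕ) : ∃ A : ℝ, 0 < A ∧ ∀ (p : ℕ → ℕ) (n : ℕ), (∀ i < n, i < p i ∧ p i ≤ n) →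
    (∀ u ≤ n, ((range n).filter (fun c => p c = u)).card ≤ D) → AP A (iW (Kb p n)) := by
  obtain ⟨A, hA, H⟩ := ap_W Pool.Agent.R751.MB.pSYM
  have hc := cD_pos D
  have hL := LC_nonneg D
  refine ⟨(A * 4 * LC D + 1) / cD D, by positivity, fun p n hp hD => ?_⟩
  have h1 := Pool.Agent.N273.KM.t_CPS _ A 4 (W p n) hA.le (by norm_num) (H p n) var_W
  have h2 : Pool.Agent.N483.KM.PS (A * 4 * LC D) (iK p n) :=
    ⟨iK_adm hp, poi_K hp hD (by positivity) h1.poi⟩
  exact Pool.Agent.N273.KM.t_CAP _ (A * 4 * LC D) (cD D) _ (iK p n) (by positivity) hc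
    (by rw [div_mul_cancel₀ _ hc.ne']; linarith) h2 (low_K hp hD)

end Pool.Agent.V7H40.TR
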