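import Pool.Agent.V7H40.TR.Body

/-!
# Trees: matrices
-/

set_option autoImplicit false

namespace Pool.Agent.V7H40.TR

open Finset

variable {p : ℕ → ℕ} {n : ℕ}

/-- the entries of the matrix -/
noncomputable def mm (p : ℕ → ℕ) (n : ℕ) (x : ℕ → ℝ) (i j : ℕ) : ℝ :=
  if i = j then x (2 * i) else if i < n ∧ p i = j then x (2 * i + 1)
  else if j < n ∧ p j = i then x (2 * j + 1) else 0

theorem mm_eq (hp : ∀ i < n, i < p i ∧ p i ≤ n) (x : ℕ → ℝ) (i j : ℕ) : mm p n x i j =
    (if i = j then x (2 * i) else 0) + (if i < n ∧ p i = j then x (2 * i + 1) else 0) +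
      (if j < n ∧ p j = i then x (2 * j + 1) else 0) := by
  unfold mm
  by_cases h1 : i = j
  · subst h1
    have h2 : ¬(i < n ∧ p i = i) := fun h => by
      have := hp i h.1
      omega
    rw [if_pos rfl, if_pos rfl, if_neg h2]
    ring
  · rw [if_neg h1, if_neg h1]
    by_cases h2 : i < n ∧ p i = j
    · have h3 : ¬(j < n ∧ p j = i) := fun h => by
        have := hp i h2.1
        have := hp j h.1
        omega
      rw [if_pos h2, if_pos h2, if_neg h3]
      ring
    · rw [if_neg h2, if_neg h2]
      ring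

theorem sum_mm (hp : ∀ i < n, i < p i ∧ p i ≤ n) (x V : ℕ → ℝ) :
    ∑ i ∈ range (n + 1), ∑ j ∈ range (n + 1), V i * mm p n x i j * V j = QF p n x V := by
  have h0 : ∀ i j, V i * mm p n x i j * V j =
      (if i = j then V i * x (2 * i) * V j else 0) +
      (if i < n ∧ p i = j then V i * x (2 * i + 1) * V j else 0) +
      (if j < n ∧ p j = i then V i * x (2 * j + 1) * V j else 0) := by
    intro i j
    rw [mm_eq hp]
    split_ifs <;> ring
  simp only [h0, sum_add_distrib]
  have e1 : ∑ i ∈ range (n + 1), ∑ j ∈ range (n + 1), (if i = j then V i * x (2 * i) * V j else 0) =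
      ∑ u ∈ range (n + 1), x (2 * u) * V u ^ 2 := by
    refine sum_congr rfl fun i hi => ?_
    rw [sum_ite_eq, if_pos hi]
    ring
  have e2 : ∑ i ∈ range (n + 1), ∑ j ∈ range (n + 1),
      (if i < n ∧ p i = j then V i * x (2 * i + 1) * V j else 0) =
      ∑ c ∈ range n, x (2 * c + 1) * (V c * V (p c)) := by
    rw [sum_range_succ]
    have h1 : ∑ j ∈ range (n + 1), (if n < n ∧ p n = j then V n * x (2 * n + 1) * V j else 0) = 0 :=
      sum_eq_zero fun j _ => if_neg fun h => absurd h.1 (lt_irrefl n)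
    rw [h1, add_zero]
    refine sum_congr rfl fun i hi => ?_
    rw [mem_range] at hi
    have h2 : ∀ j, (if i < n ∧ p i = j then V i * x (2 * i + 1) * V j else 0) =
        if p i = j then V i * x (2 * i + 1) * V j else 0 := by
      intro j
      simp only [hi, true_and]
    simp only [h2]
    rw [sum_ite_eq, if_pos (by rw [mem_range]; have := (hp i hi).2; omega)]
    ring
  have e3 : ∑ i ∈ range (n + 1), ∑ j ∈ range (n + 1),
      (if j < n ∧ p j = i then V i * x (2 * j + 1) * V j else 0) =
      ∑ c ∈ range n, x (2 * c + 1) * (V c * V (p c)) := by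
    rw [sum_comm, ← e2]
    refine sum_congr rfl fun i _ => sum_congr rfl fun j _ => ?_
    split_ifs <;> ring
  rw [e1, e2, e3]
  unfold QF
  ring

end Pool.Agent.V7H40.TR
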