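import Mathlib

/-!
# Trees: matrices of norm less than one supported on a tree, algebraic part

The vertices are `0, …, n`, the parent of `i < n` is `p i > i`. `x (2 * u)` is the diagonal entry at
`u` and `x (2 * c + 1)` the entry at the edge from `c` to `p c`. The parameters are the angles `t j`.
-/

set_option autoImplicit false

namespace Pool.Agent.V7H40.TR

open Finset Real

/-- product of the cosines of the edges `c < k` with parent `u` -/
noncomputable def rho (p : ℕ → ℕ) (t : ℕ → ℝ) (u k : ℕ) : ℝ :=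
  ∏ c ∈ (range k).filter (fun c => p c = u), cos (t (2 * c + 1))

/-- edge parameter -/
noncomputable def sg (p : ℕ → ℕ) (t : ℕ → ℝ) (c : ℕ) : ℝ := rho p t (p c) c * sin (t (2 * c + 1))

/-- diagonal entries -/
noncomputable def bX (p : ℕ → ℕ) (t : ℕ → ℝ) (u : ℕ) : ℝ :=
  rho p t u u ^ 2 * sin (t (2 * u)) -
    ∑ c ∈ (range u).filter (fun c => p c = u), sg p t c ^ 2 * sin (t (2 * c))

/-- entries at the edges -/
noncomputable def aX (p : ℕ → ℕ) (t : ℕ → ℝ) (c : ℕ) : ℝ :=
  rho p t c c * cos (t (2 * c)) * sg p t c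

/-- all entries -/
noncomputable def X (p : ℕ → ℕ) (t : ℕ → ℝ) (j : ℕ) : ℝ :=
  if j % 2 = 0 then bX p t (j / 2) else aX p t (j / 2)

variable {p : ℕ → ℕ} {t : ℕ → ℝ}

theorem X_even (u : ℕ) : X p t (2 * u) = bX p t u := by
  unfold X
  rw [if_pos (by omega), show 2 * u / 2 = u by omega]

theorem X_odd (c : ℕ) : X p t (2 * c + 1) = aX p t c := by
  unfold X
  rw [if_neg (by omega), show (2 * c + 1) / 2 = c by omega]

/-- remaining mass -/
theorem rho_sq (u k : ℕ) : rho p t u k ^ 2 +
    ∑ c ∈ (range k).filter (fun c => p c = u), sg p t c ^ 2 = 1 := by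
  induction k with
  | zero => simp [rho]
  | succ k ih =>
    by_cases h : p k = u
    · have h1 : (range (k + 1)).filter (fun c => p c = u) =
          insert k ((range k).filter (fun c => p c = u)) := by
        rw [range_add_one, filter_insert, if_pos h]
      have h2 : k ∉ (range k).filter (fun c => p c = u) := by simp
      rw [h1, sum_insert h2]
      have h3 : rho p t u (k + 1) = cos (t (2 * k + 1)) * rho p t u k := by
        unfold rho
        rw [h1, prod_insert h2]
      have h4 : sg p t k = rho p t u k * sin (t (2 * k + 1)) := by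
        unfold sg
        rw [h]
      rw [h3, h4]
      have h5 := sin_sq_add_cos_sq (t (2 * k + 1))
      nlinarith [ih, h5]
    · have h1 : (range (k + 1)).filter (fun c => p c = u) =
          (range k).filter (fun c => p c = u) := by
        rw [range_add_one, filter_insert, if_neg h]
      rw [h1]
      have h3 : rho p t u (k + 1) = rho p t u k := by
        unfold rho
        rw [h1]
      rw [h3]
      exact ih

/-- dependence on the first parameters -/
theorem rho_congr {t' : ℕ → ℝ} {u k : ℕ} (h : ∀ c < k, t (2 * c + 1) = t' (2 * c + 1)) :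
    rho p t u k = rho p t' u k := by
  unfold rho
  refine prod_congr rfl fun c hc => ?_
  rw [mem_filter, mem_range] at hc
  rw [h c hc.1]

theorem sg_congr {t' : ℕ → ℝ} {c : ℕ} (h : ∀ c' ≤ c, t (2 * c' + 1) = t' (2 * c' + 1)) :
    sg p t c = sg p t' c := by
  unfold sg
  rw [rho_congr fun c' hc' => h c' hc'.le, h c le_rfl]

/-- `X t j = G t j + H t j * sin (t j)` -/
noncomputable def Hc (p : ℕ → ℕ) (t : ℕ → ℝ) (j : ℕ) : ℝ :=
  if j % 2 = 0 then rho p t (j / 2) (j / 2) ^ 2
  else rho p t (j / 2) (j / 2) * cos (t (2 * (j / 2))) * rho p t (p (j / 2)) (j / 2)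

noncomputable def Gc (p : ℕ → ℕ) (t : ℕ → ℝ) (j : ℕ) : ℝ :=
  if j % 2 = 0 then
    -∑ c ∈ (range (j / 2)).filter (fun c => p c = j / 2), sg p t c ^ 2 * sin (t (2 * c))
  else 0

theorem X_eq (j : ℕ) : X p t j = Gc p t j + Hc p t j * sin (t j) := by
  rcases Nat.even_or_odd' j with ⟨u, rfl | rfl⟩
  · rw [X_even]
    unfold Gc Hc bX
    rw [if_pos (by omega), if_pos (by omega), show 2 * u / 2 = u by omega]
    ring
  · rw [X_odd]
    unfold Gc Hc aX sg
    rw [if_neg (by omega), if_neg (by omega), show (2 * u + 1) / 2 = u by omega]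
    ring

theorem Hc_congr {t' : ℕ → ℝ} {j : ℕ} (h : ∀ i < j, t i = t' i) : Hc p t j = Hc p t' j := by
  rcases Nat.even_or_odd' j with ⟨u, rfl | rfl⟩
  · unfold Hc
    rw [if_pos (by omega), if_pos (by omega), show 2 * u / 2 = u by omega]
    rw [rho_congr fun c hc => h _ (by omega)]
  · unfold Hc
    rw [if_neg (by omega), if_neg (by omega), show (2 * u + 1) / 2 = u by omega]
    rw [rho_congr (u := u) fun c hc => h _ (by omega), h (2 * u) (by omega),
      rho_congr (u := p u) fun c hc => h _ (by omega)]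

theorem Gc_congr {t' : ℕ → ℝ} {j : ℕ} (h : ∀ i < j, t i = t' i) : Gc p t j = Gc p t' j := by
  rcases Nat.even_or_odd' j with ⟨u, rfl | rfl⟩
  · unfold Gc
    rw [if_pos (by omega), if_pos (by omega), show 2 * u / 2 = u by omega]
    congr 1
    refine sum_congr rfl fun c hc => ?_
    rw [mem_filter, mem_range] at hc
    rw [sg_congr fun c' hc' => h _ (by omega), h (2 * c) (by omega)]
  · unfold Gc
    rw [if_neg (by omega), if_neg (by omega)]

theorem X_congr {t' : ℕ → ℝ} {j : ℕ} (h : ∀ i ≤ j, t i = t' i) : X p t j = X p t' j := by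
  rw [X_eq, X_eq, Gc_congr fun i hi => h i hi.le, Hc_congr fun i hi => h i hi.le, h j le_rfl]

/-- the open interval of the parameters -/
def I : Set ℝ := Set.Ioo (-(π / 2)) (π / 2)

theorem cos_pos_I {s : ℝ} (h : s ∈ I) : 0 < cos s := cos_pos_of_mem_Ioo h

theorem rho_pos {u k : ℕ} (h : ∀ c < k, t (2 * c + 1) ∈ I) : 0 < rho p t u k := by
  unfold rho
  refine prod_pos fun c hc => ?_
  rw [mem_filter, mem_range] at hc
  exact cos_pos_I (h c hc.1)

theorem Hc_pos {j : ℕ} (h : ∀ i < j, t i ∈ I) : 0 < Hc p t j := by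
  rcases Nat.even_or_odd' j with ⟨u, rfl | rfl⟩
  · unfold Hc
    rw [if_pos (by omega), show 2 * u / 2 = u by omega]
    exact pow_pos (rho_pos fun c hc => h _ (by omega)) 2
  · unfold Hc
    rw [if_neg (by omega), show (2 * u + 1) / 2 = u by omega]
    exact mul_pos (mul_pos (rho_pos fun c hc => h _ (by omega)) (cos_pos_I (h _ (by omega))))
      (rho_pos fun c hc => h _ (by omega))

/-- uniqueness of the parameters -/
theorem t_unique {t' : ℕ → ℝ} {N : ℕ} (h1 : ∀ i < N, t i ∈ I) (h2 : ∀ i < N, t' i ∈ I)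
    (h : ∀ j < N, X p t j = X p t' j) : ∀ j < N, t j = t' j := by
  intro j
  induction j using Nat.strong_induction_on with
  | _ j ih =>
    intro hj
    have e := h j hj
    have e1 : ∀ i < j, t i = t' i := fun i hi => ih i hi (by omega)
    rw [X_eq, X_eq, Gc_congr e1, Hc_congr e1] at e
    have hp : 0 < Hc p t' j := Hc_pos fun i hi => h2 i (by omega)
    have e2 : sin (t j) = sin (t' j) := by
      have := add_left_cancel e
      exact mul_left_cancel₀ hp.ne' this
    exact injOn_sin (Set.Ioo_subset_Icc_self (h1 j hj)) (Set.Ioo_subset_Icc_self (h2 j hj)) e2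

/-! ### the quadratic form -/

/-- the quadratic form of the matrix with entries `x` -/
noncomputable def QF (p : ℕ → ℕ) (n : ℕ) (x v : ℕ → ℝ) : ℝ :=
  ∑ u ∈ range (n + 1), x (2 * u) * v u ^ 2 + 2 * ∑ c ∈ range n, x (2 * c + 1) * (v c * v (p c))

/-- the squared norm -/
noncomputable def N2 (n : ℕ) (v : ℕ → ℝ) : ℝ := ∑ u ∈ range (n + 1), v u ^ 2

/-- sums over the edges `c < m`, according to the parent -/
theorem fib {n m : ℕ} (hp : ∀ i < n, p i ≤ n) (hm : m ≤ n) (g : ℕ → ℝ) (v : ℕ → ℝ) :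
    ∑ c ∈ range m, g c * v (p c) ^ 2 =
      ∑ w ∈ range (n + 1), (∑ c ∈ (range m).filter (fun c => p c = w), g c) * v w ^ 2 := by
  have h1 : ∀ c ∈ range m, p c ∈ range (n + 1) := by
    intro c hc
    rw [mem_range] at hc ⊢
    have := hp c (by omega)
    omega
  rw [← sum_fiberwise_of_maps_to h1]
  refine sum_congr rfl fun w _ => ?_
  rw [sum_mul]
  refine sum_congr rfl fun c hc => ?_
  rw [mem_filter] at hc
  rw [hc.2]

/-- partial decomposition of the form, `e = 1` or `e = -1` -/
theorem expand {n m : ℕ} (hp : ∀ i < n, i < p i ∧ p i ≤ n) (hm : m ≤ n) (e : ℝ) (x v : ℕ → ℝ)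
    (hx : ∀ j < 2 * m, X p t j = x j) :
    N2 n v + e * QF p n x v =
      (∑ c ∈ range m, ((1 + e * sin (t (2 * c))) * rho p t c c ^ 2 * v c ^ 2 +
        2 * e * (rho p t c c * cos (t (2 * c)) * sg p t c) * (v c * v (p c)) +
        sg p t c ^ 2 * (1 - e * sin (t (2 * c))) * v (p c) ^ 2)) +
      ∑ w ∈ Ico m (n + 1), (1 + e * x (2 * w) -
        ∑ c ∈ (range m).filter (fun c => p c = w), sg p t c ^ 2 * (1 - e * sin (t (2 * c)))) *
          v w ^ 2 +
      2 * e * ∑ c ∈ Ico m n, x (2 * c + 1) * (v c * v (p c)) := by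
  have hfib := fib (p := p) (fun i hi => (hp i hi).2) hm
    (fun c => sg p t c ^ 2 * (1 - e * sin (t (2 * c)))) v
  have hs1 : ∀ f : ℕ → ℝ, ∑ u ∈ range (n + 1), f u =
      ∑ u ∈ range m, f u + ∑ u ∈ Ico m (n + 1), f u := fun f =>
    (sum_range_add_sum_Ico f (by omega)).symm
  have hs2 : ∀ f : ℕ → ℝ, ∑ u ∈ range n, f u =
      ∑ u ∈ range m, f u + ∑ u ∈ Ico m n, f u := fun f =>
    (sum_range_add_sum_Ico f hm).symm
  rw [hs1] at hfib
  unfold N2 QF
  rw [sum_add_distrib, sum_add_distrib, hfib, hs1, hs1 (fun u => x (2 * u) * v u ^ 2), hs2]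
  have e1 : ∀ w ∈ range m, x (2 * w) = rho p t w w ^ 2 * sin (t (2 * w)) -
      ∑ c ∈ (range w).filter (fun c => p c = w), sg p t c ^ 2 * sin (t (2 * c)) := by
    intro w hw
    rw [mem_range] at hw
    rw [← hx _ (by omega), X_even]
    rfl
  have e2 : ∀ c ∈ range m, x (2 * c + 1) = rho p t c c * cos (t (2 * c)) * sg p t c := by
    intro c hc
    rw [mem_range] at hc
    rw [← hx _ (by omega), X_odd]
    rfl
  have e3 : ∀ w ∈ range m, (range m).filter (fun c => p c = w) =
      (range w).filter (fun c => p c = w) := by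
    intro w hw
    rw [mem_range] at hw
    ext c
    simp only [mem_filter, mem_range]
    constructor
    · rintro ⟨h1, h2⟩
      have := (hp c (by omega)).1
      exact ⟨by omega, h2⟩
    · rintro ⟨h1, h2⟩
      exact ⟨by omega, h2⟩
  have e4 : ∑ u ∈ range m, v u ^ 2 + e * ∑ u ∈ range m, x (2 * u) * v u ^ 2 =
      ∑ c ∈ range m, (1 + e * sin (t (2 * c))) * rho p t c c ^ 2 * v c ^ 2 +
      ∑ w ∈ range m, (∑ c ∈ (range m).filter (fun c => p c = w),
        sg p t c ^ 2 * (1 - e * sin (t (2 * c)))) * v w ^ 2 := by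
    rw [mul_sum, ← sum_add_distrib, ← sum_add_distrib]
    refine sum_congr rfl fun w hw => ?_
    rw [e1 w hw, e3 w hw]
    have h5 := rho_sq (p := p) (t := t) w w
    have h6 : ∑ c ∈ (range w).filter (fun c => p c = w),
        sg p t c ^ 2 * (1 - e * sin (t (2 * c))) =
        ∑ c ∈ (range w).filter (fun c => p c = w), sg p t c ^ 2 -
        e * ∑ c ∈ (range w).filter (fun c => p c = w), sg p t c ^ 2 * sin (t (2 * c)) := by
      rw [mul_sum, ← sum_sub_distrib]
      refine sum_congr rfl fun c _ => ?_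
      ring
    rw [h6]
    linear_combination (-(v w ^ 2)) * h5
  have e5 : ∑ c ∈ range m, 2 * e * (rho p t c c * cos (t (2 * c)) * sg p t c) * (v c * v (p c)) =
      2 * e * ∑ c ∈ range m, x (2 * c + 1) * (v c * v (p c)) := by
    rw [mul_sum]
    refine sum_congr rfl fun c hc => ?_
    rw [e2 c hc]
    ring
  have e6 : ∑ w ∈ Ico m (n + 1), (1 + e * x (2 * w) -
        ∑ c ∈ (range m).filter (fun c => p c = w), sg p t c ^ 2 * (1 - e * sin (t (2 * c)))) *
          v w ^ 2 = ∑ w ∈ Ico m (n + 1), v w ^ 2 + e * ∑ w ∈ Ico m (n + 1), x (2 * w) * v w ^ 2 -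
      ∑ w ∈ Ico m (n + 1), (∑ c ∈ (range m).filter (fun c => p c = w),
        sg p t c ^ 2 * (1 - e * sin (t (2 * c)))) * v w ^ 2 := by
    rw [mul_sum, ← sum_add_distrib, ← sum_sub_distrib]
    refine sum_congr rfl fun w _ => ?_
    ring
  rw [e5, e6]
  linear_combination e4

/-- extension of a vector to the descendants -/
theorem desc {n u : ℕ} (hp : ∀ i < n, i < p i ∧ p i ≤ n) (hu : u ≤ n) (r top : ℕ → ℝ) :
    ∃ v : ℕ → ℝ, (∀ w, u ≤ w → v w = top w) ∧ ∀ c < u, v c = r c * v (p c) := by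
  have key : ∀ k ≤ u, ∃ v : ℕ → ℝ, (∀ w, u ≤ w → v w = top w) ∧
      ∀ c, u - k ≤ c → c < u → v c = r c * v (p c) := by
    intro k
    induction k with
    | zero => exact fun _ => ⟨top, fun _ _ => rfl, fun c h1 h2 => by omega⟩
    | succ k ih =>
      intro hk
      obtain ⟨v, hv1, hv2⟩ := ih (by omega)
      refine ⟨Function.update v (u - (k + 1)) (r (u - (k + 1)) * v (p (u - (k + 1)))),
        fun w hw => ?_, fun c h1 h2 => ?_⟩
      · rw [Function.update_of_ne (by omega)]
        exact hv1 w hw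
      · have hpc := (hp c (by omega)).1
        rcases Nat.eq_or_lt_of_le h1 with h3 | h3
        · rw [← h3, Function.update_self, Function.update_of_ne]
          have := (hp (u - (k + 1)) (by omega)).1
          omega
        · rw [Function.update_of_ne (by omega), Function.update_of_ne (by omega)]
          exact hv2 c (by omega) h2
  obtain ⟨v, hv1, hv2⟩ := key u le_rfl
  exact ⟨v, hv1, fun c hc => hv2 c (by omega) hc⟩

/-- the bracket is a square -/
theorem bracket {e S C r s a b : ℝ} (he : e ^ 2 = 1) (hSC : S ^ 2 + C ^ 2 = 1)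
    (h : 0 < 1 + e * S) : (1 + e * S) * r ^ 2 * a ^ 2 + 2 * e * (r * C * s) * (a * b) +
      s ^ 2 * (1 - e * S) * b ^ 2 =
      (1 + e * S) * (r * a + e * s * C / (1 + e * S) * b) ^ 2 := by
  have h1 : (1 + e * S) * (1 - e * S) = C ^ 2 := by
    have : (e * S) ^ 2 = S ^ 2 := by rw [mul_pow, he, one_mul]
    nlinarith
  have h2 : (1 + e * S) ≠ 0 := h.ne'
  have h3 : (1 - e * S) = C ^ 2 / (1 + e * S) := by
    rw [eq_div_iff h2]
    linarith
  rw [h3]
  field_simp
  have h4 : e ^ 2 * (s ^ 2 * C ^ 2 * b ^ 2) = s ^ 2 * C ^ 2 * b ^ 2 := by rw [he, one_mul]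
  nlinarith [h4]

theorem one_add_pos {e s : ℝ} (he : e = 1 ∨ e = -1) (hs : s ∈ I) : 0 < 1 + e * sin s := by
  have h1 := cos_pos_I hs
  have h2 := sin_sq_add_cos_sq s
  rcases he with rfl | rfl <;> nlinarith [sq_nonneg (sin s), h1, mul_pos h1 h1]

theorem sq_of {e : ℝ} (he : e = 1 ∨ e = -1) : e ^ 2 = 1 := by
  rcases he with rfl | rfl <;> norm_num

/-- evaluation at a test vector -/
theorem test {n u : ℕ} (hp : ∀ i < n, i < p i ∧ p i ≤ n) (hu : u ≤ n) {e : ℝ}
    (he : e = 1 ∨ e = -1) (x top : ℕ → ℝ) (hx : ∀ j < 2 * u, X p t j = x j)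
    (ht : ∀ j < 2 * u, t j ∈ I) : ∃ v : ℕ → ℝ, (∀ w, u ≤ w → v w = top w) ∧
      N2 n v + e * QF p n x v =
      ∑ w ∈ Ico u (n + 1), (1 + e * x (2 * w) -
        ∑ c ∈ (range u).filter (fun c => p c = w), sg p t c ^ 2 * (1 - e * sin (t (2 * c)))) *
          top w ^ 2 +
      2 * e * ∑ c ∈ Ico u n, x (2 * c + 1) * (top c * top (p c)) := by
  obtain ⟨v, hv1, hv2⟩ := desc hp hu
    (fun c => -(e * sg p t c * cos (t (2 * c)) / (1 + e * sin (t (2 * c)))) / rho p t c c) top
  refine ⟨v, hv1, ?_⟩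
  rw [expand hp hu e x v hx]
  have h1 : ∑ c ∈ range u, ((1 + e * sin (t (2 * c))) * rho p t c c ^ 2 * v c ^ 2 +
        2 * e * (rho p t c c * cos (t (2 * c)) * sg p t c) * (v c * v (p c)) +
        sg p t c ^ 2 * (1 - e * sin (t (2 * c))) * v (p c) ^ 2) = 0 := by
    refine sum_eq_zero fun c hc => ?_
    rw [mem_range] at hc
    have h2 := one_add_pos he (ht (2 * c) (by omega))
    have h3 : 0 < rho p t c c := rho_pos fun c' hc' => ht _ (by omega)
    rw [bracket (sq_of he) (sin_sq_add_cos_sq _) h2, hv2 c hc]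
    have h4 : rho p t c c * (-(e * sg p t c * cos (t (2 * c)) / (1 + e * sin (t (2 * c)))) /
        rho p t c c * v (p c)) + e * sg p t c * cos (t (2 * c)) / (1 + e * sin (t (2 * c))) *
        v (p c) = 0 := by
      field_simp
      ring
    rw [h4]
    ring
  rw [h1, zero_add]
  congr 1
  · refine sum_congr rfl fun w hw => ?_
    rw [mem_Ico] at hw
    rw [hv1 w hw.1]
  · congr 1
    refine sum_congr rfl fun c hc => ?_
    rw [mem_Ico] at hc
    have := (hp c hc.2).1
    rw [hv1 c hc.1, hv1 (p c) (by omega)]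

end Pool.Agent.V7H40.TR
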