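import Pool.Agent.V7H40.TR.Alg

/-!
# Trees: existence of the parameters for matrices of norm less than one
-/

set_option autoImplicit false

namespace Pool.Agent.V7H40.TR

open Finset Real

variable {p : ℕ → ℕ} {t : ℕ → ℝ}

/-- vectors which do not vanish on `0, …, n` -/
def NZ (n : ℕ) (v : ℕ → ℝ) : Prop := ∃ i ≤ n, v i ≠ 0

/-- strict contraction -/
def Strict (p : ℕ → ℕ) (n : ℕ) (x : ℕ → ℝ) : Prop :=
  ∀ v : ℕ → ℝ, NZ n v → ∀ e : ℝ, e = 1 ∨ e = -1 → 0 < N2 n v + e * QF p n x v

/-- the bounds at the vertex `u` -/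
theorem vertex {n u : ℕ} (hp : ∀ i < n, i < p i ∧ p i ≤ n) (hu : u ≤ n) {x : ℕ → ℝ}
    (hS : Strict p n x) (hx : ∀ j < 2 * u, X p t j = x j) (ht : ∀ j < 2 * u, t j ∈ I) :
    |x (2 * u) - Gc p t (2 * u)| < Hc p t (2 * u) := by
  have key : ∀ e : ℝ, e = 1 ∨ e = -1 → 0 < Hc p t (2 * u) + e * (x (2 * u) - Gc p t (2 * u)) := by
    intro e he
    obtain ⟨v, hv1, hv2⟩ := test hp hu he x (fun w => if w = u then 1 else 0) hx ht
    have h1 := hS v ⟨u, hu, by rw [hv1 u le_rfl]; simp⟩ e he
    rw [hv2] at h1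
    have e1 : ∑ w ∈ Ico u (n + 1), (1 + e * x (2 * w) -
        ∑ c ∈ (range u).filter (fun c => p c = w), sg p t c ^ 2 * (1 - e * sin (t (2 * c)))) *
          (if w = u then (1 : ℝ) else 0) ^ 2 = 1 + e * x (2 * u) -
        ∑ c ∈ (range u).filter (fun c => p c = u), sg p t c ^ 2 * (1 - e * sin (t (2 * c))) := by
      rw [sum_eq_single_of_mem u (mem_Ico.2 ⟨le_rfl, by omega⟩)]
      · simp
      · intro w _ hw
        rw [if_neg hw]
        ring
    have e2 : ∑ c ∈ Ico u n, x (2 * c + 1) * ((if c = u then (1 : ℝ) else 0) *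
        (if p c = u then (1 : ℝ) else 0)) = 0 := by
      refine sum_eq_zero fun c hc => ?_
      rw [mem_Ico] at hc
      have := (hp c hc.2).1
      rw [if_neg (show ¬ p c = u by omega)]
      ring
    rw [e1, e2] at h1
    have e3 := rho_sq (p := p) (t := t) u u
    have e4 : ∑ c ∈ (range u).filter (fun c => p c = u), sg p t c ^ 2 * (1 - e * sin (t (2 * c))) =
        ∑ c ∈ (range u).filter (fun c => p c = u), sg p t c ^ 2 -
        e * ∑ c ∈ (range u).filter (fun c => p c = u), sg p t c ^ 2 * sin (t (2 * c)) := by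
      rw [mul_sum, ← sum_sub_distrib]
      exact sum_congr rfl fun c _ => by ring
    have e5 : Hc p t (2 * u) = rho p t u u ^ 2 := by
      unfold Hc
      rw [if_pos (by omega), show 2 * u / 2 = u by omega]
    have e6 : Gc p t (2 * u) =
        -∑ c ∈ (range u).filter (fun c => p c = u), sg p t c ^ 2 * sin (t (2 * c)) := by
      unfold Gc
      rw [if_pos (by omega), show 2 * u / 2 = u by omega]
    rw [e5, e6]
    rw [e4] at h1
    linarith
  rw [abs_lt]
  have h1 := key 1 (Or.inl rfl)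
  have h2 := key (-1) (Or.inr rfl)
  constructor <;> linarith

/-- the bounds at the edge `u` -/
theorem edge {n u : ℕ} (hp : ∀ i < n, i < p i ∧ p i ≤ n) (hu : u < n) {x : ℕ → ℝ}
    (hS : Strict p n x) (hx : ∀ j < 2 * u + 1, X p t j = x j) (ht : ∀ j < 2 * u + 1, t j ∈ I) :
    |x (2 * u + 1) - Gc p t (2 * u + 1)| < Hc p t (2 * u + 1) := by
  have hr : 0 < rho p t u u := rho_pos fun c hc => ht _ (by omega)
  have hr2 : 0 < rho p t (p u) u := rho_pos fun c hc => ht _ (by omega)
  have hC : 0 < cos (t (2 * u)) := cos_pos_I (ht _ (by omega))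
  have hpu := hp u hu
  have key : ∀ e : ℝ, e = 1 ∨ e = -1 → x (2 * u + 1) ^ 2 / ((1 + e * sin (t (2 * u))) *
      rho p t u u ^ 2) < 1 + e * x (2 * p u) -
        ∑ c ∈ (range u).filter (fun c => p c = p u), sg p t c ^ 2 * (1 - e * sin (t (2 * c))) := by
    intro e he
    have h0 := one_add_pos he (ht (2 * u) (by omega))
    obtain ⟨y, hy⟩ : ∃ y : ℝ, y = -(e * x (2 * u + 1)) / ((1 + e * sin (t (2 * u))) *
      rho p t u u ^ 2) := ⟨_, rfl⟩
    obtain ⟨v, hv1, hv2⟩ := test hp hu.le he x (fun w => if w = u then y else if w = p u then 1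
      else 0) (fun j hj => hx j (by omega)) (fun j hj => ht j (by omega))
    have h1 := hS v ⟨p u, hpu.2, by
      rw [hv1 (p u) (by omega), if_neg (by omega), if_pos rfl]; exact one_ne_zero⟩ e he
    rw [hv2] at h1
    have e1 : ∑ w ∈ Ico u (n + 1), (1 + e * x (2 * w) -
        ∑ c ∈ (range u).filter (fun c => p c = w), sg p t c ^ 2 * (1 - e * sin (t (2 * c)))) *
          (if w = u then y else if w = p u then (1 : ℝ) else 0) ^ 2 =
        (1 + e * x (2 * u) - ∑ c ∈ (range u).filter (fun c => p c = u),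
          sg p t c ^ 2 * (1 - e * sin (t (2 * c)))) * y ^ 2 +
        (1 + e * x (2 * p u) - ∑ c ∈ (range u).filter (fun c => p c = p u),
          sg p t c ^ 2 * (1 - e * sin (t (2 * c)))) := by
      rw [sum_eq_add_of_mem u (p u) (mem_Ico.2 ⟨le_rfl, by omega⟩) (mem_Ico.2 ⟨by omega, by omega⟩)
        (by omega)]
      · rw [if_pos rfl, if_neg (show ¬ p u = u by omega), if_pos rfl]
        ring
      · intro w _ hw
        rw [if_neg hw.1, if_neg hw.2]
        ring
    have e2 : ∑ c ∈ Ico u n, x (2 * c + 1) * ((if c = u then y else if c = p u then (1 : ℝ) else 0) *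
        (if p c = u then y else if p c = p u then (1 : ℝ) else 0)) = x (2 * u + 1) * y := by
      rw [sum_eq_single_of_mem u (mem_Ico.2 ⟨le_rfl, hu⟩)]
      · rw [if_pos rfl, if_neg (show ¬ p u = u by omega), if_pos rfl]
        ring
      · intro c hc hcu
        rw [mem_Ico] at hc
        rw [if_neg hcu]
        have h3 := (hp c hc.2).1
        by_cases h4 : c = p u
        · rw [if_pos h4, if_neg (show ¬ p c = u by omega), if_neg (show ¬ p c = p u by omega)]
          ring
        · rw [if_neg h4]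
          ring
    have e3 : 1 + e * x (2 * u) - ∑ c ∈ (range u).filter (fun c => p c = u),
          sg p t c ^ 2 * (1 - e * sin (t (2 * c))) =
        (1 + e * sin (t (2 * u))) * rho p t u u ^ 2 := by
      rw [← hx (2 * u) (by omega), X_even]
      unfold bX
      have h3 := rho_sq (p := p) (t := t) u u
      have h4 : ∑ c ∈ (range u).filter (fun c => p c = u), sg p t c ^ 2 * (1 - e * sin (t (2 * c))) =
        ∑ c ∈ (range u).filter (fun c => p c = u), sg p t c ^ 2 -
        e * ∑ c ∈ (range u).filter (fun c => p c = u), sg p t c ^ 2 * sin (t (2 * c)) := by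
        rw [mul_sum, ← sum_sub_distrib]
        exact sum_congr rfl fun c _ => by ring
      rw [h4]
      linear_combination (-1 : ℝ) * h3
    rw [e1, e2, e3] at h1
    obtain ⟨D, hD⟩ : ∃ D : ℝ, D = (1 + e * sin (t (2 * u))) * rho p t u u ^ 2 := ⟨_, rfl⟩
    have hDp : 0 < D := by rw [hD]; positivity
    rw [← hD] at h1 hy ⊢
    have e4 : D * y ^ 2 + 2 * e * (x (2 * u + 1) * y) = -(x (2 * u + 1) ^ 2 / D) := by
      rw [hy]
      field_simp
      have := sq_of he
      linear_combination (-(x (2 * u + 1) ^ 2)) * this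
    linarith
  have h1 := key 1 (Or.inl rfl)
  have h2 := key (-1) (Or.inr rfl)
  have e0 := rho_sq (p := p) (t := t) (p u) u
  have e4 : ∀ e : ℝ, ∑ c ∈ (range u).filter (fun c => p c = p u),
        sg p t c ^ 2 * (1 - e * sin (t (2 * c))) =
        ∑ c ∈ (range u).filter (fun c => p c = p u), sg p t c ^ 2 -
        e * ∑ c ∈ (range u).filter (fun c => p c = p u), sg p t c ^ 2 * sin (t (2 * c)) := by
    intro e
    rw [mul_sum, ← sum_sub_distrib]
    exact sum_congr rfl fun c _ => by ring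
  rw [e4] at h1 h2
  have h3 := one_add_pos (Or.inl rfl) (ht (2 * u) (by omega))
  have h4 := one_add_pos (Or.inr rfl) (ht (2 * u) (by omega))
  obtain ⟨S, hSd⟩ : ∃ S : ℝ, S = sin (t (2 * u)) := ⟨_, rfl⟩
  obtain ⟨C, hCd⟩ : ∃ C : ℝ, C = cos (t (2 * u)) := ⟨_, rfl⟩
  obtain ⟨r, hrd⟩ : ∃ r : ℝ, r = rho p t u u := ⟨_, rfl⟩
  obtain ⟨a, ha⟩ : ∃ a : ℝ, a = x (2 * u + 1) := ⟨_, rfl⟩
  have hSC : S ^ 2 + C ^ 2 = 1 := by rw [hSd, hCd]; exact sin_sq_add_cos_sq _
  rw [← hSd, ← hrd, ← ha] at h1 h2
  rw [← hSd] at h3 h4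
  rw [← hrd] at hr
  rw [← hCd] at hC
  have e5 : a ^ 2 / ((1 + 1 * S) * r ^ 2) + a ^ 2 / ((1 + -1 * S) * r ^ 2) =
      2 * (a ^ 2 / (C ^ 2 * r ^ 2)) := by
    have h5 : C ^ 2 = (1 + 1 * S) * (1 + -1 * S) := by nlinarith
    rw [h5]
    obtain ⟨P, hP⟩ : ∃ P : ℝ, P = 1 + 1 * S := ⟨_, rfl⟩
    obtain ⟨M, hM⟩ : ∃ M : ℝ, M = 1 + -1 * S := ⟨_, rfl⟩
    have hPM : P + M = 2 := by rw [hP, hM]; ring
    rw [← hP, ← hM]
    rw [← hP] at h3
    rw [← hM] at h4
    have h3' := h3.ne'
    have h4' := h4.ne'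
    have hr' := hr.ne'
    rw [← hPM]
    field_simp
    ring
  have e6 : a ^ 2 / (C ^ 2 * r ^ 2) < rho p t (p u) u ^ 2 := by linarith
  rw [div_lt_iff₀ (by positivity)] at e6
  have e7 : Hc p t (2 * u + 1) = r * C * rho p t (p u) u := by
    unfold Hc
    rw [if_neg (by omega), show (2 * u + 1) / 2 = u by omega, hrd, hCd]
  have e8 : Gc p t (2 * u + 1) = 0 := by
    unfold Gc
    rw [if_neg (by omega)]
  rw [e7, e8, sub_zero, ← ha]
  refine abs_lt_of_sq_lt_sq ?_ (by positivity)
  nlinarith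

/-- **existence of the parameters** -/
theorem exists_param {n : ℕ} (hp : ∀ i < n, i < p i ∧ p i ≤ n) {x : ℕ → ℝ}
    (hS : Strict p n x) : ∀ k ≤ 2 * n + 1, ∃ t : ℕ → ℝ, (∀ j < k, t j ∈ I) ∧
      ∀ j < k, X p t j = x j := by
  intro k
  induction k with
  | zero => exact fun _ => ⟨fun _ => 0, fun j hj => by omega, fun j hj => by omega⟩
  | succ k ih =>
    intro hk
    obtain ⟨t, ht, hx⟩ := ih (by omega)
    have hb : |x k - Gc p t k| < Hc p t k := by
      rcases Nat.even_or_odd' k with ⟨u, rfl | rfl⟩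
      · exact vertex hp (by omega) hS hx ht
      · exact edge hp (by omega) hS hx ht
    have hH : 0 < Hc p t k := (abs_nonneg _).trans_lt hb
    obtain ⟨s, hs⟩ : ∃ s : ℝ, s = (x k - Gc p t k) / Hc p t k := ⟨_, rfl⟩
    have hs1 : |s| < 1 := by
      rw [hs, abs_div, abs_of_pos hH, div_lt_one hH]
      exact hb
    rw [abs_lt] at hs1
    have hne : ∀ i < k, Function.update t k (arcsin s) i = t i := fun i hi =>
      Function.update_of_ne (by omega) _ _
    refine ⟨Function.update t k (arcsin s), fun j hj => ?_, fun j hj => ?_⟩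
    · rcases Nat.lt_or_ge j k with h | h
      · rw [hne j h]
        exact ht j h
      · have : j = k := by omega
        subst this
        rw [Function.update_self]
        exact ⟨neg_pi_div_two_lt_arcsin.2 hs1.1, arcsin_lt_pi_div_two.2 hs1.2⟩
    · rcases Nat.lt_or_ge j k with h | h
      · rw [X_congr fun i hi => hne i (by omega)]
        exact hx j h
      · have : j = k := by omega
        subst this
        rw [X_eq, Gc_congr hne, Hc_congr hne, Function.update_self,
          sin_arcsin hs1.1.le hs1.2.le, hs]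
        field_simp
        ring

/-- the matrices with parameters in the open box are strict contractions -/
theorem strict_of {n : ℕ} (hp : ∀ i < n, i < p i ∧ p i ≤ n) {x : ℕ → ℝ}
    (ht : ∀ j < 2 * n + 1, t j ∈ I) (hx : ∀ j < 2 * n + 1, X p t j = x j) : Strict p n x := by
  intro v hv e he
  rw [expand hp le_rfl e x v (fun j hj => hx j (by omega))]
  have hr : ∀ u ≤ n, 0 < rho p t u u := fun u hu => rho_pos fun c hc => ht _ (by omega)
  have e1 : ∑ w ∈ Ico n (n + 1), (1 + e * x (2 * w) -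
        ∑ c ∈ (range n).filter (fun c => p c = w), sg p t c ^ 2 * (1 - e * sin (t (2 * c)))) *
          v w ^ 2 = (1 + e * sin (t (2 * n))) * rho p t n n ^ 2 * v n ^ 2 := by
    rw [Nat.Ico_succ_singleton, sum_singleton, ← hx (2 * n) (by omega), X_even]
    unfold bX
    have h3 := rho_sq (p := p) (t := t) n n
    have h4 : ∑ c ∈ (range n).filter (fun c => p c = n), sg p t c ^ 2 * (1 - e * sin (t (2 * c))) =
        ∑ c ∈ (range n).filter (fun c => p c = n), sg p t c ^ 2 -
        e * ∑ c ∈ (range n).filter (fun c => p c = n), sg p t c ^ 2 * sin (t (2 * c)) := by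
      rw [mul_sum, ← sum_sub_distrib]
      exact sum_congr rfl fun c _ => by ring
    rw [h4]
    linear_combination (-(v n ^ 2)) * h3
  have e2 : ∑ c ∈ range n, ((1 + e * sin (t (2 * c))) * rho p t c c ^ 2 * v c ^ 2 +
        2 * e * (rho p t c c * cos (t (2 * c)) * sg p t c) * (v c * v (p c)) +
        sg p t c ^ 2 * (1 - e * sin (t (2 * c))) * v (p c) ^ 2) =
      ∑ c ∈ range n, (1 + e * sin (t (2 * c))) *
        (rho p t c c * v c + e * sg p t c * cos (t (2 * c)) / (1 + e * sin (t (2 * c))) *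
          v (p c)) ^ 2 := by
    refine sum_congr rfl fun c hc => ?_
    rw [mem_range] at hc
    exact bracket (sq_of he) (sin_sq_add_cos_sq _) (one_add_pos he (ht _ (by omega)))
  rw [e1, e2, Ico_self, sum_empty, mul_zero, add_zero]
  have hn1 := one_add_pos he (ht (2 * n) (by omega))
  have hpos : ∀ c ∈ range n, 0 ≤ (1 + e * sin (t (2 * c))) *
        (rho p t c c * v c + e * sg p t c * cos (t (2 * c)) / (1 + e * sin (t (2 * c))) *
          v (p c)) ^ 2 := by
    intro c hc
    rw [mem_range] at hc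
    exact mul_nonneg (one_add_pos he (ht _ (by omega))).le (sq_nonneg _)
  by_contra hle
  rw [not_lt] at hle
  have h0 : 0 ≤ (1 + e * sin (t (2 * n))) * rho p t n n ^ 2 * v n ^ 2 := by positivity
  have h1 := sum_nonneg hpos
  have h2 : ∑ c ∈ range n, (1 + e * sin (t (2 * c))) *
        (rho p t c c * v c + e * sg p t c * cos (t (2 * c)) / (1 + e * sin (t (2 * c))) *
          v (p c)) ^ 2 = 0 := by linarith
  have h3 : (1 + e * sin (t (2 * n))) * rho p t n n ^ 2 * v n ^ 2 = 0 := by linarith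
  have hvn : v n = 0 := by
    have h4 := hr n le_rfl
    have h5 : (1 + e * sin (t (2 * n))) * rho p t n n ^ 2 ≠ 0 := by positivity
    have := (mul_eq_zero.1 h3).resolve_left h5
    exact pow_eq_zero_iff (two_ne_zero) |>.1 this
  have hall : ∀ k ≤ n, v (n - k) = 0 := by
    intro k
    induction k using Nat.strong_induction_on with
    | _ k ih =>
      intro hk
      rcases Nat.eq_zero_or_pos k with rfl | hk0
      · exact hvn
      · have hc : n - k ∈ range n := mem_range.2 (by omega)
        have h4 := (sum_eq_zero_iff_of_nonneg hpos).1 h2 _ hc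
        have h5 := one_add_pos he (ht (2 * (n - k)) (by omega))
        have h6 := pow_eq_zero_iff (two_ne_zero) |>.1 ((mul_eq_zero.1 h4).resolve_left h5.ne')
        have h7 := hp (n - k) (by omega)
        have h8 : v (p (n - k)) = 0 := by
          have := ih (n - p (n - k)) (by omega) (by omega)
          rwa [show n - (n - p (n - k)) = p (n - k) by omega] at this
        rw [h8, mul_zero, add_zero] at h6
        exact (mul_eq_zero.1 h6).resolve_left (hr _ (by omega)).ne'
  obtain ⟨i, hi, hvi⟩ := hv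
  have := hall (n - i) (by omega)
  rw [show n - (n - i) = i by omega] at this
  exact hvi this

end Pool.Agent.V7H40.TR
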