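import Pool.Agent.V7H40.TR.Map

/-!
# Trees: the set of contractions is a symmetric convex body
-/

set_option autoImplicit false

namespace Pool.Agent.V7H40.TR

open Finset Real MeasureTheory
open scoped ENNReal

variable {p : ℕ → ℕ} {n : ℕ}

theorem ext_add' {N : ℕ} (x y : E N) (k : ℕ) : ext (x + y) k = ext x k + ext y k := by
  unfold ext
  split_ifs <;> simp

theorem ext_smul {N : ℕ} (a : ℝ) (x : E N) (k : ℕ) : ext (a • x) k = a * ext x k := by
  unfold ext
  split_ifs <;> simp

theorem ext_neg {N : ℕ} (x : E N) (k : ℕ) : ext (-x) k = -ext x k := by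
  unfold ext
  split_ifs <;> simp

theorem QF_add (x y v : ℕ → ℝ) : QF p n (fun k => x k + y k) v = QF p n x v + QF p n y v := by
  unfold QF
  simp only [add_mul, sum_add_distrib]
  ring

theorem QF_smul (a : ℝ) (x v : ℕ → ℝ) : QF p n (fun k => a * x k) v = a * QF p n x v := by
  unfold QF
  simp only [mul_assoc]
  rw [← mul_sum, ← mul_sum]
  ring

theorem QF_ext_add (x y : E (2 * n + 1)) (v : ℕ → ℝ) :
    QF p n (ext (x + y)) v = QF p n (ext x) v + QF p n (ext y) v := by
  rw [← QF_add]
  congr 1
  funext k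
  exact ext_add' x y k

theorem QF_ext_smul (a : ℝ) (x : E (2 * n + 1)) (v : ℕ → ℝ) :
    QF p n (ext (a • x)) v = a * QF p n (ext x) v := by
  rw [← QF_smul]
  congr 1
  funext k
  exact ext_smul a x k

theorem Kb_neg {x : E (2 * n + 1)} (hx : x ∈ Kb p n) : -x ∈ Kb p n := by
  intro v
  have h : -x = (-1 : ℝ) • x := by simp
  rw [h, QF_ext_smul, abs_mul, abs_neg, abs_one, one_mul]
  exact hx v

theorem Kb_conv : Convex ℝ (Kb p n) := by
  intro x hx y hy a b ha hb hab v
  rw [QF_ext_add, QF_ext_smul, QF_ext_smul]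
  calc |a * QF p n (ext x) v + b * QF p n (ext y) v| ≤ |a * QF p n (ext x) v| +
        |b * QF p n (ext y) v| := abs_add_le _ _
    _ = a * |QF p n (ext x) v| + b * |QF p n (ext y) v| := by
        rw [abs_mul, abs_mul, abs_of_nonneg ha, abs_of_nonneg hb]
    _ ≤ a * N2 n v + b * N2 n v :=
        add_le_add (mul_le_mul_of_nonneg_left (hx v) ha) (mul_le_mul_of_nonneg_left (hy v) hb)
    _ = N2 n v := by rw [← add_mul, hab, one_mul]

theorem ext_cont {N : ℕ} (k : ℕ) : Continuous fun z : E N => ext z k := (ext_smooth k).continuous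

theorem QF_cont (v : ℕ → ℝ) : Continuous fun x : E (2 * n + 1) => QF p n (ext x) v := by
  unfold QF
  refine Continuous.add ?_ (Continuous.mul continuous_const ?_)
  · exact continuous_finsetSum _ fun u _ => (ext_cont _).mul continuous_const
  · exact continuous_finsetSum _ fun u _ => (ext_cont _).mul continuous_const

theorem Kb_closed : IsClosed (Kb p n) := by
  have h : Kb p n = ⋂ v : ℕ → ℝ, {x | |QF p n (ext x) v| ≤ N2 n v} := by
    ext x
    simp [Kb]
  rw [h]
  exact isClosed_iInter fun v => isClosed_le (QF_cont v).abs continuous_const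

theorem N2_nonneg (v : ℕ → ℝ) : 0 ≤ N2 n v := sum_nonneg fun _ _ => sq_nonneg _

theorem le_N2 (v : ℕ → ℝ) {u : ℕ} (hu : u ≤ n) : v u ^ 2 ≤ N2 n v := by
  unfold N2
  exact single_le_sum (f := fun u => v u ^ 2) (fun _ _ => sq_nonneg _)
    (mem_range.2 (by omega))

theorem N2_pos {v : ℕ → ℝ} (hv : NZ n v) : 0 < N2 n v := by
  obtain ⟨i, hi, hvi⟩ := hv
  exact (by positivity : (0 : ℝ) < v i ^ 2).trans_le (le_N2 v hi)

/-- the form is small for small entries -/
theorem QF_le (hp : ∀ i < n, i < p i ∧ p i ≤ n) {x v : ℕ → ℝ} {δ : ℝ} (hδ : 0 ≤ δ)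
    (hx : ∀ k < 2 * n + 1, |x k| ≤ δ) : |QF p n x v| ≤ δ * (1 + 2 * n) * N2 n v := by
  unfold QF
  refine (abs_add_le _ _).trans ?_
  have h1 : |∑ u ∈ range (n + 1), x (2 * u) * v u ^ 2| ≤ δ * N2 n v := by
    refine (abs_sum_le_sum_abs _ _).trans ?_
    unfold N2
    rw [mul_sum]
    refine sum_le_sum fun u hu => ?_
    rw [mem_range] at hu
    rw [abs_mul, abs_of_nonneg (sq_nonneg (v u))]
    exact mul_le_mul_of_nonneg_right (hx _ (by omega)) (sq_nonneg _)
  have h2 : |∑ c ∈ range n, x (2 * c + 1) * (v c * v (p c))| ≤ n * (δ * N2 n v) := by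
    refine (abs_sum_le_sum_abs _ _).trans ?_
    have h3 : ∀ c ∈ range n, |x (2 * c + 1) * (v c * v (p c))| ≤ δ * N2 n v := by
      intro c hc
      rw [mem_range] at hc
      rw [abs_mul]
      refine mul_le_mul (hx _ (by omega)) ?_ (abs_nonneg _) hδ
      have h4 := le_N2 (n := n) v hc.le
      have h5 := le_N2 (n := n) v (hp c hc).2
      rw [abs_mul]
      rw [← sq_abs] at h4 h5
      nlinarith [sq_nonneg (|v c| - |v (p c)|)]
    refine (sum_le_sum h3).trans (le_of_eq ?_)
    rw [sum_const, card_range, nsmul_eq_mul]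
  rw [abs_mul, abs_two]
  linarith

theorem Kb_int (hp : ∀ i < n, i < p i ∧ p i ≤ n) : (interior (Kb p n)).Nonempty := by
  refine ⟨0, ?_⟩
  rw [mem_interior_iff_mem_nhds, Metric.mem_nhds_iff]
  refine ⟨1 / (1 + 2 * n), by positivity, fun x hx v => ?_⟩
  rw [mem_ball_zero_iff] at hx
  have h1 : ∀ k < 2 * n + 1, |ext x k| ≤ 1 / (1 + 2 * n) := by
    intro k hk
    rw [ext_lt x hk]
    exact (EuclideanSpace.norm_eq x ▸ (PiLp.norm_apply_le x ⟨k, hk⟩)).trans (by
      rw [← EuclideanSpace.norm_eq]; exact hx.le)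
  refine (QF_le hp (by positivity) h1).trans (le_of_eq ?_)
  have : (1 + 2 * (n : ℝ)) ≠ 0 := by positivity
  field_simp

theorem Kb_bdd (hp : ∀ i < n, i < p i ∧ p i ≤ n) : Bornology.IsBounded (Kb p n) := by
  have h1 : ∀ x ∈ Kb p n, ∀ u ≤ n, |ext x (2 * u)| ≤ 1 := by
    intro x hx u hu
    have h := hx (fun w => if w = u then 1 else 0)
    have e1 : QF p n (ext x) (fun w => if w = u then 1 else 0) = ext x (2 * u) := by
      unfold QF
      beta_reduce
      rw [sum_eq_single_of_mem u (mem_range.2 (by omega))]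
      · rw [sum_eq_zero]
        · simp
        · intro c hc
          rw [mem_range] at hc
          have := hp c hc
          by_cases h2 : c = u
          · rw [if_neg (show ¬ p c = u by omega)]
            ring
          · rw [if_neg h2]
            ring
      · intro w _ hw
        rw [if_neg hw]
        ring
    have e2 : N2 n (fun w => if w = u then (1 : ℝ) else 0) = 1 := by
      unfold N2
      beta_reduce
      rw [sum_eq_single_of_mem u (mem_range.2 (by omega))]
      · simp
      · intro w _ hw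
        rw [if_neg hw]
        ring
    rwa [e1, e2] at h
  have h2 : ∀ x ∈ Kb p n, ∀ u < n, |ext x (2 * u + 1)| ≤ 2 := by
    intro x hx u hu
    have hpu := hp u hu
    have h := hx (fun w => if w = u then 1 else if w = p u then 1 else 0)
    have e1 : QF p n (ext x) (fun w => if w = u then 1 else if w = p u then 1 else 0) =
        ext x (2 * u) + ext x (2 * p u) + 2 * ext x (2 * u + 1) := by
      unfold QF
      beta_reduce
      have e3 : ∑ w ∈ range (n + 1), ext x (2 * w) *
          (if w = u then (1 : ℝ) else if w = p u then 1 else 0) ^ 2 =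
          ext x (2 * u) + ext x (2 * p u) := by
        rw [sum_eq_add_of_mem u (p u) (mem_range.2 (by omega)) (mem_range.2 (by omega))
          (by omega)]
        · rw [if_pos rfl, if_neg (show ¬ p u = u by omega), if_pos rfl]
          ring
        · intro w _ hw
          rw [if_neg hw.1, if_neg hw.2]
          ring
      have e4 : ∑ c ∈ range n, ext x (2 * c + 1) *
          ((if c = u then (1 : ℝ) else if c = p u then 1 else 0) *
          (if p c = u then (1 : ℝ) else if p c = p u then 1 else 0)) = ext x (2 * u + 1) := by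
        rw [sum_eq_single_of_mem u (mem_range.2 hu)]
        · rw [if_pos rfl, if_neg (show ¬ p u = u by omega), if_pos rfl]
          ring
        · intro c hc hcu
          rw [mem_range] at hc
          have h3 := (hp c hc).1
          rw [if_neg hcu]
          by_cases h4 : c = p u
          · rw [if_pos h4, if_neg (show ¬ p c = u by omega), if_neg (show ¬ p c = p u by omega)]
            ring
          · rw [if_neg h4]
            ring
      rw [e3, e4]
    have e2 : N2 n (fun w => if w = u then (1 : ℝ) else if w = p u then 1 else 0) = 2 := by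
      unfold N2
      beta_reduce
      rw [sum_eq_add_of_mem u (p u) (mem_range.2 (by omega)) (mem_range.2 (by omega))
        (by omega)]
      · rw [if_pos rfl, if_neg (show ¬ p u = u by omega), if_pos rfl]
        norm_num
      · intro w _ hw
        rw [if_neg hw.1, if_neg hw.2]
        ring
    rw [e1, e2] at h
    have h3 := h1 x hx u hu.le
    have h4 := h1 x hx (p u) hpu.2
    rw [abs_le] at h h3 h4 ⊢
    constructor <;> linarith
  rw [Metric.isBounded_iff_subset_closedBall 0]
  refine ⟨Real.sqrt (∑ _j : Fin (2 * n + 1), (2 : ℝ) ^ 2), fun x hx => ?_⟩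
  rw [mem_closedBall_zero_iff, EuclideanSpace.norm_eq]
  refine Real.sqrt_le_sqrt (sum_le_sum fun j _ => ?_)
  rw [← ext_fin, Real.norm_eq_abs]
  refine pow_le_pow_left₀ (abs_nonneg _) ?_ 2
  rcases Nat.even_or_odd' (j : ℕ) with ⟨u, hu | hu⟩
  · rw [hu]
    exact (h1 x hx u (by have := j.2; omega)).trans (by norm_num)
  · rw [hu]
    exact h2 x hx u (by have := j.2; omega)

theorem Kb_comp (hp : ∀ i < n, i < p i ∧ p i ≤ n) : IsCompact (Kb p n) :=
  Metric.isCompact_of_isClosed_isBounded Kb_closed (Kb_bdd hp)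

theorem Kint_sub (hp : ∀ i < n, p i ≤ n) : Kint p n ⊆ Kb p n := by
  intro x hx v
  by_cases hv : NZ n v
  · have h1 := hx v hv 1 (Or.inl rfl)
    have h2 := hx v hv (-1) (Or.inr rfl)
    rw [abs_le]
    constructor <;> linarith
  · have h0 : ∀ i ≤ n, v i = 0 := by
      intro i hi
      by_contra h
      exact hv ⟨i, hi, h⟩
    have h1 : QF p n (ext x) v = 0 := by
      unfold QF
      rw [sum_eq_zero, sum_eq_zero]
      · simp
      · intro c hc
        rw [mem_range] at hc
        rw [h0 c hc.le]
        ring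
      · intro u hu
        rw [mem_range] at hu
        rw [h0 u (by omega)]
        ring
    rw [h1, abs_zero]
    exact N2_nonneg v

theorem int_sub : interior (Kb p n) ⊆ Kint p n := by
  intro x hx v hv e he
  by_contra hle
  rw [not_lt] at hle
  have hN := N2_pos hv
  obtain ⟨y, hy⟩ : ∃ y : E (2 * n + 1), y = WithLp.toLp 2 fun j : Fin (2 * n + 1) =>
    if (j : ℕ) % 2 = 0 then (1 : ℝ) else 0 := ⟨_, rfl⟩
  have hyQ : QF p n (ext y) v = N2 n v := by
    unfold QF N2
    have e1 : ∀ u ∈ range (n + 1), ext y (2 * u) * v u ^ 2 = v u ^ 2 := by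
      intro u hu
      rw [mem_range] at hu
      rw [ext_lt y (by omega), hy]
      simp
    have e2 : ∀ c ∈ range n, ext y (2 * c + 1) * (v c * v (p c)) = 0 := by
      intro c hc
      rw [mem_range] at hc
      rw [ext_lt y (by omega), hy]
      have : ¬ (2 * c + 1) % 2 = 0 := by omega
      simp
    rw [sum_congr rfl e1, sum_eq_zero e2]
    simp
  have hcont : Filter.Tendsto (fun s : ℝ => x + s • y) (nhds 0) (nhds x) := by
    have : Continuous fun s : ℝ => x + s • y := by fun_prop
    have h := this.tendsto 0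
    simpa using h
  have hev := hcont.eventually (mem_interior_iff_mem_nhds.1 hx)
  rw [Metric.eventually_nhds_iff] at hev
  obtain ⟨ε, hε, H⟩ := hev
  have h1 := H (y := -e * (ε / 2)) (by
    rw [dist_zero_right, norm_mul, norm_neg, Real.norm_eq_abs, Real.norm_eq_abs]
    have : |e| = 1 := by rcases he with rfl | rfl <;> simp
    rw [this, one_mul, abs_of_pos (by positivity)]
    linarith)
  have h2 : x + (-e * (ε / 2)) • y ∈ Kb p n := h1
  have h3 := h2 v
  rw [QF_ext_add, QF_ext_smul, hyQ] at h3
  have h4 : e * (QF p n (ext x) v + -e * (ε / 2) * N2 n v) =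
      e * QF p n (ext x) v - (ε / 2) * N2 n v := by
    have := sq_of he
    linear_combination (-(ε / 2) * N2 n v) * this
  have h5 : |e * (QF p n (ext x) v + -e * (ε / 2) * N2 n v)| ≤ N2 n v := by
    rw [abs_mul]
    have : |e| = 1 := by rcases he with rfl | rfl <;> simp
    rw [this, one_mul]
    exact h3
  rw [h4] at h5
  have h6 := (abs_le.1 h5).1
  have h7 : 0 < ε / 2 * N2 n v := by positivity
  linarith

theorem ae_eq (hp : ∀ i < n, i < p i ∧ p i ≤ n) :
    (Kb p n : Set (E (2 * n + 1))) =ᵐ[volume] Kint p n := by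
  have h1 : volume (frontier (Kb p n)) = 0 := Kb_conv.addHaar_frontier volume
  have h2 : Kb p n \ Kint p n ⊆ frontier (Kb p n) := by
    intro x hx
    exact ⟨subset_closure hx.1, fun h => hx.2 (int_sub h)⟩
  have h3 : volume (Kb p n \ Kint p n) = 0 := measure_mono_null h2 h1
  have h4 : volume (Kint p n \ Kb p n) = 0 := by
    rw [Set.diff_eq_empty.2 (Kint_sub fun i hi => (hp i hi).2)]
    exact measure_empty
  exact ae_eq_set.2 ⟨h3, h4⟩

/-- change of variables -/
theorem chg (hp : ∀ i < n, i < p i ∧ p i ≤ n) (g : E (2 * n + 1) → ℝ) :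
    ∫ x in Kb p n, g x = ∫ z, g (F p (2 * n + 1) z) * W p n z := by
  rw [← chg0 hp g]
  exact setIntegral_congr_set (ae_eq hp)

end Pool.Agent.V7H40.TR
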