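import Pool.Agent.V7H40.TR.Cov
import Pool.Agent.V7H40.TR.Body
import Pool.Agent.R751.MB.Mix
import Pool.Agent.R751.MB.Ten

/-!
# Trees: the Poincare inequality for the product weight and for the body
-/

set_option autoImplicit false

namespace Pool.Agent.V7H40.TR

open Finset Real MeasureTheory
open scoped ENNReal InnerProductSpace
open Pool.Agent.R751.MB (Eu EW VW Adm LCn AP S_SYM ap_pi ten)

variable {p : ℕ → ℕ} {n : ℕ}

/-! ### dimension one -/

/-- the one dimensional weight, on `ℝ¹` -/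
noncomputable def w1 (e : ℕ) (x : Eu (Fin 1)) : ℝ := wt e (x 0)

theorem wt_le_one (e : ℕ) (s : ℝ) : wt e s ≤ 1 :=
  (wt_le e s).trans (Set.indicator_le_self' (fun _ _ => zero_le_one) _)

theorem int_box {N : ℕ} {g w : E N → ℝ} (hg : Continuous g) (hw : Measurable w)
    (h0 : ∀ z, 0 ≤ w z) (h1 : ∀ z, w z ≤ 1) (h2 : ∀ z, z ∉ box N → w z = 0) :
    Integrable fun z => g z * w z := by
  have hc : IsCompact {z : E N | ∀ k, z k ∈ Set.Icc (-(π / 2)) (π / 2)} := by
    have h1 : IsCompact (Set.univ.pi fun _ : Fin N => Set.Icc (-(π / 2)) (π / 2)) :=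
      isCompact_univ_pi fun _ => isCompact_Icc
    have h2 : Continuous (WithLp.toLp 2 : (Fin N → ℝ) → E N) := PiLp.continuous_toLp 2 _
    convert h1.image h2 using 1
    ext z
    constructor
    · intro hz
      exact ⟨fun k => z k, fun k _ => hz k, rfl⟩
    · rintro ⟨y, hy, rfl⟩ k
      exact hy k (Set.mem_univ k)
  obtain ⟨B, hB⟩ := hc.exists_bound_of_continuousOn (f := g) hg.continuousOn
  have h3 : Integrable (({z : E N | ∀ k, z k ∈ Set.Icc (-(π / 2)) (π / 2)}).indicator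
      fun _ => B) := by
    rw [integrable_indicator_iff hc.measurableSet]
    exact integrableOn_const hc.measure_lt_top.ne
  refine h3.mono' (hg.measurable.mul hw).aestronglyMeasurable
    (Filter.Eventually.of_forall fun z => ?_)
  by_cases hz : z ∈ box N
  · have hz' : z ∈ {z : E N | ∀ k, z k ∈ Set.Icc (-(π / 2)) (π / 2)} :=
      fun k => Set.Ioo_subset_Icc_self (hz k)
    rw [Set.indicator_of_mem hz', norm_mul, Real.norm_of_nonneg (h0 z)]
    have h4 := hB z hz'
    calc ‖g z‖ * w z ≤ B * 1 := mul_le_mul h4 (h1 z) (h0 z) ((norm_nonneg _).trans h4)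
      _ = B := mul_one B
  · rw [h2 z hz, mul_zero, norm_zero]
    by_cases h4 : z ∈ {z : E N | ∀ k, z k ∈ Set.Icc (-(π / 2)) (π / 2)}
    · rw [Set.indicator_of_mem h4]
      exact (norm_nonneg _).trans (hB z h4)
    · rw [Set.indicator_of_notMem h4]

theorem w1_meas (e : ℕ) : Measurable (w1 e) := by
  have : Continuous fun z : E 1 => z 0 := by fun_prop
  exact (wt_meas e).comp this.measurable

theorem w1_adm (e : ℕ) : Adm (w1 e) where
  nonneg x := wt_nonneg e _
  int := by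
    refine int_box (g := fun x : E 1 => 1 + ‖x‖ ^ 2) (by fun_prop) (w1_meas e)
      (fun x => wt_nonneg e _) (fun x => wt_le_one e _) fun z hz => ?_
    unfold w1 wt
    refine Set.indicator_of_notMem (fun h => hz fun k => ?_) _
    rw [Subsingleton.elim k 0]
    exact h
  pos := by
    have h := int_prod 1 fun _ s => wt e s
    simp only [Finset.univ_unique, Finset.prod_singleton] at h
    have h2 : ∫ z : E 1, wt e (z default) = Ci e := by rw [h, int_wt1]
    have h3 : ∫ x, w1 e x = Ci e := h2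
    rw [h3]
    exact Ci_pos e
  meas := w1_meas e

theorem wt_lc (e : ℕ) {a b t : ℝ} (h0 : 0 < t) (h1 : t < 1) :
    wt e a ^ (1 - t) * wt e b ^ t ≤ wt e ((1 - t) * a + t * b) := by
  by_cases ha : a ∈ I
  · by_cases hb : b ∈ I
    · have hc : (1 - t) * a + t * b ∈ I := by
        have := (convex_Ioo (-(π / 2)) (π / 2)) ha hb (by linarith : (0 : ℝ) ≤ 1 - t) h0.le
          (by ring)
        exact this
      unfold wt
      rw [Set.indicator_of_mem ha, Set.indicator_of_mem hb, Set.indicator_of_mem hc]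
      have h2 := (cos_pos_I ha).le
      have h3 := (cos_pos_I hb).le
      rw [← Real.rpow_pow_comm h2, ← Real.rpow_pow_comm h3, ← mul_pow]
      refine pow_le_pow_left₀ (by positivity) ?_ e
      refine (Real.geom_mean_le_arith_mean2_weighted (by linarith) h0.le h2 h3 (by ring)).trans ?_
      have h4 := strictConcaveOn_cos_Icc.concaveOn.2 (Set.Ioo_subset_Icc_self ha)
        (Set.Ioo_subset_Icc_self hb) (by linarith : (0 : ℝ) ≤ 1 - t) h0.le (by ring)
      simpa only [smul_eq_mul] using h4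
    · have : wt e b = 0 := by
        unfold wt
        exact Set.indicator_of_notMem hb _
      rw [this, Real.zero_rpow h0.ne', mul_zero]
      exact wt_nonneg e _
  · have : wt e a = 0 := by
      unfold wt
      exact Set.indicator_of_notMem ha _
    rw [this, Real.zero_rpow (by linarith : (1 - t) ≠ 0), zero_mul]
    exact wt_nonneg e _

theorem w1_lc (e : ℕ) : LCn (w1 e) := fun _ _ _ h0 h1 => wt_lc e h0 h1

theorem ap_one (hS : S_SYM) : ∃ A : ℝ, 0 < A ∧ ∀ e : ℕ, AP A (w1 e) := by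
  obtain ⟨A, hA, H⟩ := hS
  refine ⟨A, hA, fun e => H 1 (w1 e) le_rfl (w1_adm e) (w1_lc e) fun σ x y h => ?_⟩
  have h1 := h 0
  rw [Subsingleton.elim (σ 0) 0, abs_eq_abs] at h1
  unfold w1
  rcases h1 with h1 | h1
  · rw [h1]
  · rw [h1, wt_even]

/-! ### products -/

/-- coordinates -/
noncomputable def eqv (N : ℕ) : (∀ _ : Fin N, Eu (Fin 1)) ≃ₗ[ℝ] Eu (Fin N) where
  toFun y := WithLp.toLp 2 fun i => y i 0
  map_add' x y := rfl
  map_smul' c x := rfl
  invFun z := fun i => WithLp.toLp 2 fun _ => z i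
  left_inv y := by
    funext i
    ext j
    rw [Subsingleton.elim j 0]
  right_inv z := by
    ext i
    rfl

theorem ap_W (hS : S_SYM) : ∃ A : ℝ, 0 < A ∧ ∀ (p : ℕ → ℕ) (n : ℕ), AP A (W p n) := by
  obtain ⟨A, hA, H⟩ := ap_one hS
  refine ⟨A, hA, fun p n => ?_⟩
  exact ap_pi ten hA.le (2 * n + 1) (fun _ => 1) (2 * n + 1) (eqv _)
    (fun i => w1 (ee p n i)) fun i => H _

theorem W_meas : Measurable (W p n) := by
  unfold W
  refine Finset.measurable_fun_prod _ fun j _ => ?_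
  have : Continuous fun z : E (2 * n + 1) => z j := by fun_prop
  exact (wt_meas _).comp this.measurable

theorem EE_le {f : E (2 * n + 1) → ℝ} (hf : Continuous f) {c : ℝ}
    (h : ∀ z ∈ box (2 * n + 1), f z ≤ c) : EE p n f ≤ c := by
  unfold EE
  rw [div_le_iff₀ int_W_pos, ← integral_const_mul]
  refine integral_mono (W_int hf) (W_int (g := fun _ => c) continuous_const) fun z => ?_
  by_cases hz : z ∈ box (2 * n + 1)
  · exact mul_le_mul_of_nonneg_right (h z hz) (W_nonneg z)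
  · simp only [W_not_box hz, mul_zero, le_refl]

theorem EE_mono {f g : E (2 * n + 1) → ℝ} (hf : Continuous f) (hg : Continuous g)
    (h : ∀ z, f z ≤ g z) : EE p n f ≤ EE p n g := by
  unfold EE
  refine div_le_div_of_nonneg_right ?_ int_W_pos.le
  exact integral_mono (W_int hf) (W_int hg) fun z => mul_le_mul_of_nonneg_right (h z) (W_nonneg z)

theorem inner_sum {N : ℕ} (x θ : E N) : ⟪x, θ⟫_ℝ = ∑ j, θ j * x j := by
  rw [PiLp.inner_apply]
  refine sum_congr rfl fun j _ => ?_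
  simp

/-- variances for the product weight -/
theorem var_W (θ : E (2 * n + 1)) : VW (W p n) (fun x => ⟪x, θ⟫_ℝ) ≤ 4 * ‖θ‖ ^ 2 := by
  have h0 : VW (W p n) (fun x => ⟪x, θ⟫_ℝ) ≤ EE p n (fun z => ⟪z, θ⟫_ℝ ^ 2) := by
    unfold VW
    have : 0 ≤ EW (W p n) (fun x => ⟪x, θ⟫_ℝ) ^ 2 := sq_nonneg _
    have h1 : EW (W p n) (fun x => ⟪x, θ⟫_ℝ ^ 2) = EE p n (fun z => ⟪z, θ⟫_ℝ ^ 2) := rfl
    linarith
  refine h0.trans ?_
  have hc : ∀ j, Continuous fun z : E (2 * n + 1) => θ j * z j := fun j => by fun_prop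
  have h1 : (fun z : E (2 * n + 1) => ⟪z, θ⟫_ℝ ^ 2) =
      fun z => ∑ i, ∑ j, (θ i * z i) * (θ j * z j) := by
    funext z
    rw [inner_sum, sq, sum_mul_sum]
  rw [h1, EE_sum (f := fun i (z : E (2 * n + 1)) => ∑ j, (θ i * z i) * (θ j * z j)) univ
    (fun i => continuous_finsetSum _ fun j _ => (hc i).mul (hc j)), EuclideanSpace.norm_sq_eq,
    mul_sum]
  refine sum_le_sum fun i _ => ?_
  rw [EE_sum (f := fun j (z : E (2 * n + 1)) => (θ i * z i) * (θ j * z j)) univ
    (fun j => (hc i).mul (hc j)), sum_eq_single_of_mem i (mem_univ i)]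
  · refine EE_le ((hc i).mul (hc i)) fun z hz => ?_
    have h2 := hz i
    unfold I at h2
    rw [Set.mem_Ioo] at h2
    have h3 := pi_le_four
    have h4 : z i ^ 2 ≤ 4 := by nlinarith [h2.1, h2.2, pi_pos]
    rw [Real.norm_eq_abs, sq_abs]
    change θ i * z i * (θ i * z i) ≤ _
    nlinarith [mul_le_mul_of_nonneg_left h4 (sq_nonneg (θ i))]
  · intro j _ hji
    refine EE_odd i _ fun z => ?_
    rw [flip_apply, flip_apply, if_pos rfl, if_neg hji]
    ring

/-! ### the body -/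

/-- the indicator function of the body -/
noncomputable def iK (p : ℕ → ℕ) (n : ℕ) : Eu (Fin (2 * n + 1)) → ℝ := (Kb p n).indicator fun _ => 1

theorem int_iK (g : E (2 * n + 1) → ℝ) : ∫ x, g x * iK p n x = ∫ x in Kb p n, g x := by
  rw [← integral_indicator Kb_closed.measurableSet]
  congr 1
  funext x
  unfold iK
  by_cases hx : x ∈ Kb p n
  · rw [Set.indicator_of_mem hx, Set.indicator_of_mem hx, mul_one]
  · rw [Set.indicator_of_notMem hx, Set.indicator_of_notMem hx, mul_zero]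

theorem EW_iK (hp : ∀ i < n, i < p i ∧ p i ≤ n) (v : E (2 * n + 1) → ℝ) :
    EW (iK p n) v = EE p n (fun z => v (F p (2 * n + 1) z)) := by
  unfold EW EE
  have h1 : ∫ x, iK p n x = ∫ z, W p n z := by
    have h2 := int_iK (p := p) (n := n) fun _ => 1
    simp only [one_mul] at h2
    rw [h2, chg hp]
    simp only [one_mul]
  rw [h1, int_iK, chg hp]

theorem iK_adm (hp : ∀ i < n, i < p i ∧ p i ≤ n) : Adm (iK p n) where
  nonneg x := Set.indicator_nonneg (fun _ _ => zero_le_one) x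
  int := by
    have h1 : (fun x : Eu (Fin (2 * n + 1)) => (1 + ‖x‖ ^ 2) * iK p n x) =
        (Kb p n).indicator fun x => 1 + ‖x‖ ^ 2 := by
      funext x
      unfold iK
      by_cases hx : x ∈ Kb p n
      · rw [Set.indicator_of_mem hx, Set.indicator_of_mem hx, mul_one]
      · rw [Set.indicator_of_notMem hx, Set.indicator_of_notMem hx, mul_zero]
    rw [h1, integrable_indicator_iff Kb_closed.measurableSet]
    have h2 : Continuous fun x : E (2 * n + 1) => 1 + ‖x‖ ^ 2 := by fun_prop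
    exact h2.continuousOn.integrableOn_compact (Kb_comp hp)
  pos := by
    have h2 := int_iK (p := p) (n := n) fun _ => 1
    simp only [one_mul] at h2
    rw [h2, chg hp]
    simp only [one_mul]
    exact int_W_pos
  meas := measurable_const.indicator Kb_closed.measurableSet

/-- the Poincare inequality for the body -/
theorem poi_K {D : ℕ} (hp : ∀ i < n, i < p i ∧ p i ≤ n)
    (hD : ∀ u ≤ n, ((range n).filter (fun c => p c = u)).card ≤ D) {P : ℝ} (hP : 0 ≤ P)
    (H : ∀ f : E (2 * n + 1) → ℝ, ContDiff ℝ 1 f → (∃ B : ℝ, ∀ x, |f x| ≤ B) →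
      (∃ L : ℝ, ∀ x, ‖fderiv ℝ f x‖ ≤ L) →
      VW (W p n) f ≤ P * EW (W p n) fun x => ‖fderiv ℝ f x‖ ^ 2)
    (f : E (2 * n + 1) → ℝ) (hf : ContDiff ℝ 1 f) (hb : ∃ B : ℝ, ∀ x, |f x| ≤ B)
    (hl : ∃ L : ℝ, ∀ x, ‖fderiv ℝ f x‖ ≤ L) :
    VW (iK p n) f ≤ (P * LC D) * EW (iK p n) fun x => ‖fderiv ℝ f x‖ ^ 2 := by
  obtain ⟨B, hB⟩ := hb
  obtain ⟨L, hL⟩ := hl
  have hF := F_smooth (p := p) (2 * n + 1)
  have hd := F_fderiv (fun i hi => (hp i hi).2) hD
  have hcomp : ∀ z, ‖fderiv ℝ (fun z => f (F p (2 * n + 1) z)) z‖ ≤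
      ‖fderiv ℝ f (F p (2 * n + 1) z)‖ * Real.sqrt (LC D) := by
    intro z
    have h1 : fderiv ℝ (fun z => f (F p (2 * n + 1) z)) z =
        (fderiv ℝ f (F p (2 * n + 1) z)).comp (fderiv ℝ (F p (2 * n + 1)) z) :=
      fderiv_comp z (hf.differentiable (by norm_num) _) (hF.differentiable (by norm_num) _)
    rw [h1]
    exact (ContinuousLinearMap.opNorm_comp_le _ _).trans
      (mul_le_mul_of_nonneg_left (hd z) (norm_nonneg _))
  have hg : ContDiff ℝ 1 fun z => f (F p (2 * n + 1) z) := hf.comp hF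
  have h1 := H (fun z => f (F p (2 * n + 1) z)) hg ⟨B, fun z => hB _⟩
    ⟨L * Real.sqrt (LC D), fun z => (hcomp z).trans
      (mul_le_mul_of_nonneg_right (hL _) (Real.sqrt_nonneg _))⟩
  have h2 : VW (iK p n) f = VW (W p n) fun z => f (F p (2 * n + 1) z) := by
    unfold VW
    rw [EW_iK hp, EW_iK hp]
    rfl
  rw [h2]
  refine h1.trans ?_
  rw [mul_assoc]
  refine mul_le_mul_of_nonneg_left ?_ hP
  rw [EW_iK hp, ← EE_smul]
  refine EE_mono ((hg.continuous_fderiv (by norm_num)).norm.pow 2)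
    (continuous_const.mul (((hf.continuous_fderiv (by norm_num)).comp hF.continuous).norm.pow 2))
    fun z => ?_
  have h3 := hcomp z
  have h4 : (‖fderiv ℝ f (F p (2 * n + 1) z)‖ * Real.sqrt (LC D)) ^ 2 =
      LC D * ‖fderiv ℝ f (F p (2 * n + 1) z)‖ ^ 2 := by
    rw [mul_pow, Real.sq_sqrt (LC_nonneg D)]
    ring
  rw [← h4]
  exact pow_le_pow_left₀ (norm_nonneg _) h3 2

/-- the variances of the marginals of the body -/
theorem low_K {D : ℕ} (hp : ∀ i < n, i < p i ∧ p i ≤ n)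
    (hD : ∀ u ≤ n, ((range n).filter (fun c => p c = u)).card ≤ D) (θ : E (2 * n + 1)) :
    cD D * ‖θ‖ ^ 2 ≤ VW (iK p n) (fun x => ⟪x, θ⟫_ℝ) := by
  have h0 : EW (iK p n) (fun x => ⟪x, θ⟫_ℝ) = 0 := by
    have h1 : ∫ x, ⟪x, θ⟫_ℝ * iK p n x = -∫ x, ⟪x, θ⟫_ℝ * iK p n x := by
      conv_lhs => rw [← integral_neg_eq_self]
      rw [← integral_neg]
      congr 1
      funext x
      have h2 : iK p n (-x) = iK p n x := by
        unfold iK
        by_cases hx : x ∈ Kb p n
        · rw [Set.indicator_of_mem hx, Set.indicator_of_mem (Kb_neg hx)]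
        · rw [Set.indicator_of_notMem hx, Set.indicator_of_notMem fun h => hx (by
            simpa using Kb_neg h)]
      rw [h2, inner_neg_left]
      ring
    unfold EW
    have h2 : ∫ x, ⟪x, θ⟫_ℝ * iK p n x = 0 := by linarith
    rw [h2, zero_div]
  unfold VW
  rw [h0, EW_iK hp]
  have h1 := EE_lower hp hD (ext θ)
  have h2 : ∑ j ∈ range (2 * n + 1), ext θ j ^ 2 = ‖θ‖ ^ 2 := by
    rw [EuclideanSpace.norm_sq_eq, ← Fin.sum_univ_eq_sum_range (fun j => ext θ j ^ 2)]
    refine sum_congr rfl fun j _ => ?_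
    rw [ext_fin, Real.norm_eq_abs, sq_abs]
  have h3 : (fun z : E (2 * n + 1) => (∑ j ∈ range (2 * n + 1), ext θ j * X p (ext z) j) ^ 2) =
      fun z => ⟪F p (2 * n + 1) z, θ⟫_ℝ ^ 2 := by
    funext z
    rw [inner_sum, ← Fin.sum_univ_eq_sum_range (fun j => ext θ j * X p (ext z) j)]
    congr 1
    refine sum_congr rfl fun j _ => ?_
    rw [ext_fin, F_apply]
  rw [h2, h3] at h1
  simpa using h1

end Pool.Agent.V7H40.TR
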