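import Pool.Agent.V7H40.TR.Prob

/-!
# Trees: lower bound for the covariance
-/

set_option autoImplicit false

namespace Pool.Agent.V7H40.TR

open Finset Real MeasureTheory
open scoped ENNReal

variable {p : ℕ → ℕ} {n : ℕ}

/-- change of the sign of one parameter -/
def fs (i : ℕ) (t : ℕ → ℝ) (k : ℕ) : ℝ := if k = i then -t k else t k

theorem ext_flip {N : ℕ} (k : Fin N) (z : E N) : ext (flip N k z) = fs k (ext z) := by
  funext j
  unfold fs
  by_cases hj : j < N
  · rw [ext_lt _ hj, flip_apply, ext_lt z hj]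
    by_cases h : j = k
    · rw [if_pos h, if_pos (Fin.ext h)]
    · rw [if_neg h, if_neg (fun h1 => h (by rw [← h1]))]
  · have h : j ≠ k := fun h => hj (by rw [h]; exact k.2)
    rw [if_neg h]
    unfold ext
    rw [dif_neg hj, dif_neg hj]

theorem cos_fs (i k : ℕ) (t : ℕ → ℝ) : cos (fs i t k) = cos (t k) := by
  unfold fs
  split_ifs
  · exact cos_neg _
  · rfl

theorem rho_fs (i u k : ℕ) (t : ℕ → ℝ) : rho p (fs i t) u k = rho p t u k := by
  unfold rho
  exact prod_congr rfl fun c _ => cos_fs _ _ _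

theorem sin_fs_self (i : ℕ) (t : ℕ → ℝ) : sin (fs i t i) = -sin (t i) := by
  unfold fs
  rw [if_pos rfl, sin_neg]

theorem sin_fs_ne {i k : ℕ} (h : k ≠ i) (t : ℕ → ℝ) : sin (fs i t k) = sin (t k) := by
  unfold fs
  rw [if_neg h]

theorem sg_sq_fs (i c : ℕ) (t : ℕ → ℝ) : sg p (fs i t) c ^ 2 = sg p t c ^ 2 := by
  unfold sg
  rw [rho_fs]
  by_cases h : 2 * c + 1 = i
  · subst h
    rw [sin_fs_self]
    ring
  · rw [sin_fs_ne h]

/-- orthogonal terms -/
noncomputable def TT (p : ℕ → ℕ) (n : ℕ) (θ t : ℕ → ℝ) (j : ℕ) : ℝ :=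
  if j % 2 = 0 then sin (t j) * (θ j * rho p t (j / 2) (j / 2) ^ 2 -
    if j / 2 < n then θ (2 * p (j / 2)) * sg p t (j / 2) ^ 2 else 0)
  else θ j * aX p t (j / 2)

theorem TT_even (θ t : ℕ → ℝ) (u : ℕ) : TT p n θ t (2 * u) =
    sin (t (2 * u)) * (θ (2 * u) * rho p t u u ^ 2 -
      if u < n then θ (2 * p u) * sg p t u ^ 2 else 0) := by
  unfold TT
  rw [if_pos (by omega), show 2 * u / 2 = u by omega]

theorem TT_odd (θ t : ℕ → ℝ) (c : ℕ) : TT p n θ t (2 * c + 1) = θ (2 * c + 1) * aX p t c := by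
  unfold TT
  rw [if_neg (by omega), show (2 * c + 1) / 2 = c by omega]

theorem TT_self (θ t : ℕ → ℝ) (j : ℕ) : TT p n θ (fs j t) j = -TT p n θ t j := by
  rcases Nat.even_or_odd' j with ⟨u, rfl | rfl⟩
  · rw [TT_even, TT_even, sin_fs_self, rho_fs, sg_sq_fs]
    ring
  · rw [TT_odd, TT_odd]
    unfold aX sg
    rw [rho_fs, rho_fs, cos_fs, sin_fs_self]
    ring

theorem TT_ne {i j : ℕ} (h : j ≠ i) (θ t : ℕ → ℝ) : TT p n θ (fs i t) j = TT p n θ t j := by
  rcases Nat.even_or_odd' j with ⟨u, rfl | rfl⟩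
  · rw [TT_even, TT_even, sin_fs_ne h, rho_fs, sg_sq_fs]
  · rw [TT_odd, TT_odd]
    unfold aX sg
    rw [rho_fs, rho_fs, cos_fs, sin_fs_ne h]

theorem sum_own {f : ℕ → ℝ} (hp : ∀ i < n, i < p i ∧ p i ≤ n) :
    ∑ u ∈ range (n + 1), ∑ c ∈ (range u).filter (fun c => p c = u), f c = ∑ c ∈ range n, f c := by
  have h1 : ∀ c ∈ range n, p c ∈ range (n + 1) := by
    intro c hc
    rw [mem_range] at hc ⊢
    have := hp c hc
    omega
  rw [← sum_fiberwise_of_maps_to h1]
  refine sum_congr rfl fun u hu => ?_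
  rw [mem_range] at hu
  refine sum_congr ?_ fun _ _ => rfl
  ext c
  simp only [mem_filter, mem_range]
  constructor
  · rintro ⟨h2, h3⟩
    exact ⟨by omega, h3⟩
  · rintro ⟨h2, h3⟩
    have := (hp c h2).1
    exact ⟨by omega, h3⟩

theorem sum_TT (hp : ∀ i < n, i < p i ∧ p i ≤ n) (θ t : ℕ → ℝ) :
    ∑ j ∈ range (2 * n + 1), θ j * X p t j = ∑ j ∈ range (2 * n + 1), TT p n θ t j := by
  rw [sum_parity, sum_parity]
  simp only [X_even, X_odd, TT_even, TT_odd]
  congr 1
  have h1 : ∀ u ∈ range (n + 1), θ (2 * u) * bX p t u = θ (2 * u) * (rho p t u u ^ 2 *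
      sin (t (2 * u))) - ∑ c ∈ (range u).filter (fun c => p c = u),
        θ (2 * p c) * (sg p t c ^ 2 * sin (t (2 * c))) := by
    intro u _
    unfold bX
    rw [mul_sub, mul_sum]
    congr 1
    refine sum_congr rfl fun c hc => ?_
    rw [(mem_filter.1 hc).2]
  rw [sum_congr rfl h1, sum_sub_distrib, sum_own hp]
  have h2 : ∑ c ∈ range n, θ (2 * p c) * (sg p t c ^ 2 * sin (t (2 * c))) =
      ∑ u ∈ range (n + 1), sin (t (2 * u)) *
        (if u < n then θ (2 * p u) * sg p t u ^ 2 else 0) := by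
    rw [sum_range_succ, if_neg (lt_irrefl n), mul_zero, add_zero]
    refine sum_congr rfl fun c hc => ?_
    rw [mem_range] at hc
    rw [if_pos hc]
    ring
  rw [h2, ← sum_sub_distrib]
  refine sum_congr rfl fun u _ => ?_
  ring

theorem TT_cont (θ : ℕ → ℝ) (j : ℕ) : Continuous fun z : E (2 * n + 1) => TT p n θ (ext z) j := by
  have h1 : ∀ u k, Continuous fun z : E (2 * n + 1) => rho p (ext z) u k := fun u k =>
    (rho_smooth u k).continuous
  have h2 : ∀ c, Continuous fun z : E (2 * n + 1) => sg p (ext z) c := fun c =>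
    (sg_smooth c).continuous
  have h3 : ∀ k, Continuous fun z : E (2 * n + 1) => ext z k := fun k =>
    (ext_smooth k).continuous
  rcases Nat.even_or_odd' j with ⟨u, rfl | rfl⟩
  · simp only [TT_even]
    refine (continuous_sin.comp (h3 _)).mul (Continuous.sub (continuous_const.mul ((h1 _ _).pow 2)) ?_)
    by_cases hu : u < n
    · simp only [hu, if_true]
      exact continuous_const.mul ((h2 _).pow 2)
    · simp only [hu, if_false]
      exact continuous_const
  · simp only [TT_odd]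
    unfold aX
    exact continuous_const.mul (((h1 _ _).mul (continuous_cos.comp (h3 _))).mul (h2 _))

/-- the second moment is a sum -/
theorem EE_sq (hp : ∀ i < n, i < p i ∧ p i ≤ n) (θ : ℕ → ℝ) :
    EE p n (fun z => (∑ j ∈ range (2 * n + 1), θ j * X p (ext z) j) ^ 2) =
      ∑ j ∈ range (2 * n + 1), EE p n (fun z => TT p n θ (ext z) j ^ 2) := by
  have h1 : (fun z : E (2 * n + 1) => (∑ j ∈ range (2 * n + 1), θ j * X p (ext z) j) ^ 2) =
      fun z => ∑ i ∈ range (2 * n + 1), ∑ j ∈ range (2 * n + 1),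
        TT p n θ (ext z) i * TT p n θ (ext z) j := by
    funext z
    rw [sum_TT hp, sq, sum_mul_sum]
  have hcc : ∀ i j, Continuous fun z : E (2 * n + 1) => TT p n θ (ext z) i * TT p n θ (ext z) j :=
    fun i j => (TT_cont θ i).mul (TT_cont θ j)
  rw [h1, EE_sum (f := fun i (z : E (2 * n + 1)) => ∑ j ∈ range (2 * n + 1),
    TT p n θ (ext z) i * TT p n θ (ext z) j) (range (2 * n + 1))
    (fun i => continuous_finsetSum _ fun j _ => hcc i j)]
  refine sum_congr rfl fun i hi => ?_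
  rw [EE_sum (f := fun j (z : E (2 * n + 1)) => TT p n θ (ext z) i * TT p n θ (ext z) j)
    (range (2 * n + 1)) (fun j => hcc i j), sum_eq_single_of_mem i hi]
  · congr 1
    funext z
    ring
  · intro j hj hji
    rw [mem_range] at hi hj
    refine EE_odd ⟨i, hi⟩ _ fun z => ?_
    rw [ext_flip]
    change TT p n θ (fs i (ext z)) i * TT p n θ (fs i (ext z)) j = _
    rw [TT_self, TT_ne hji]
    ring

/-! ### the moments -/

theorem EE4 {u : ℕ} (hu : u < n) (A B : Finset ℕ) (hAB : Disjoint A B)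
    (hA : ∀ c ∈ A, c < n ∧ c ≠ u) (hB : ∀ c ∈ B, c < n ∧ c ≠ u) (q f g h : ℝ → ℝ) :
    EE p n (fun z => q (ext z (2 * u)) * (∏ c ∈ A, f (ext z (2 * c + 1))) *
      (∏ c ∈ B, g (ext z (2 * c + 1))) * h (ext z (2 * u + 1))) =
    M1 (ee p n (2 * u)) q * (∏ c ∈ A, M1 (ee p n (2 * c + 1)) f) *
      (∏ c ∈ B, M1 (ee p n (2 * c + 1)) g) * M1 (ee p n (2 * u + 1)) h := by
  classical
  obtain ⟨A', hA'⟩ : ∃ A' : Finset ℕ, A' = A.image (fun c => 2 * c + 1) := ⟨_, rfl⟩
  obtain ⟨B', hB'⟩ : ∃ B' : Finset ℕ, B' = B.image (fun c => 2 * c + 1) := ⟨_, rfl⟩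
  obtain ⟨k, hk⟩ : ∃ k : ℕ → ℝ → ℝ, k = fun j => if j = 2 * u then q else if j = 2 * u + 1 then h
    else if j ∈ A' then f else g := ⟨_, rfl⟩
  have hinj : Function.Injective fun c : ℕ => 2 * c + 1 := fun a b hab => by
    simp only at hab
    omega
  have hAodd : ∀ j ∈ A', j ≠ 2 * u ∧ j ≠ 2 * u + 1 ∧ j < 2 * n + 1 := by
    intro j hj
    rw [hA', mem_image] at hj
    obtain ⟨c, hc, rfl⟩ := hj
    have := hA c hc
    exact ⟨by omega, by omega, by omega⟩
  have hBodd : ∀ j ∈ B', j ≠ 2 * u ∧ j ≠ 2 * u + 1 ∧ j < 2 * n + 1 := by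
    intro j hj
    rw [hB', mem_image] at hj
    obtain ⟨c, hc, rfl⟩ := hj
    have := hB c hc
    exact ⟨by omega, by omega, by omega⟩
  have hdis : Disjoint A' B' := by
    rw [hA', hB']
    exact (disjoint_image hinj).2 hAB
  have hBA : ∀ j ∈ B', j ∉ A' := fun j hj hj' => (disjoint_left.1 hdis) hj' hj
  have hd1 : 2 * u ∉ insert (2 * u + 1) (A' ∪ B') := by
    rw [mem_insert, mem_union]
    rintro (h1 | h1 | h1)
    · omega
    · exact (hAodd _ h1).1 rfl
    · exact (hBodd _ h1).1 rfl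
  have hd2 : 2 * u + 1 ∉ A' ∪ B' := by
    rw [mem_union]
    rintro (h1 | h1)
    · exact (hAodd _ h1).2.1 rfl
    · exact (hBodd _ h1).2.1 rfl
  have key : ∀ m : ℕ → (ℝ → ℝ) → ℝ, ∏ j ∈ insert (2 * u) (insert (2 * u + 1) (A' ∪ B')), m j (k j) =
      m (2 * u) q * (∏ c ∈ A, m (2 * c + 1) f) * (∏ c ∈ B, m (2 * c + 1) g) *
        m (2 * u + 1) h := by
    intro m
    rw [prod_insert hd1, prod_insert hd2, prod_union hdis]
    have e1 : m (2 * u) (k (2 * u)) = m (2 * u) q := by rw [hk]; simp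
    have e2 : m (2 * u + 1) (k (2 * u + 1)) = m (2 * u + 1) h := by
      rw [hk]
      simp
    have e3 : ∏ j ∈ A', m j (k j) = ∏ c ∈ A, m (2 * c + 1) f := by
      have : ∏ j ∈ A', m j (k j) = ∏ j ∈ A', m j f := by
        refine prod_congr rfl fun j hj => ?_
        have h1 := hAodd j hj
        rw [hk]
        simp only
        rw [if_neg h1.1, if_neg h1.2.1, if_pos hj]
      rw [this, hA', prod_image fun a _ b _ hab => hinj hab]
    have e4 : ∏ j ∈ B', m j (k j) = ∏ c ∈ B, m (2 * c + 1) g := by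
      have : ∏ j ∈ B', m j (k j) = ∏ j ∈ B', m j g := by
        refine prod_congr rfl fun j hj => ?_
        have h1 := hBodd j hj
        rw [hk]
        simp only
        rw [if_neg h1.1, if_neg h1.2.1, if_neg (hBA j hj)]
      rw [this, hB', prod_image fun a _ b _ hab => hinj hab]
    rw [e1, e2, e3, e4]
    ring
  have h1 := EE_prod (p := p) (n := n) (insert (2 * u) (insert (2 * u + 1) (A' ∪ B'))) (by
    intro j hj
    rw [mem_insert, mem_insert, mem_union] at hj
    rcases hj with h1 | h1 | h1 | h1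
    · omega
    · omega
    · exact (hAodd _ h1).2.2
    · exact (hBodd _ h1).2.2) k
  rw [key fun j f => M1 (ee p n j) f] at h1
  rw [← h1]
  congr 1
  funext z
  exact (key fun j f => f (ext z j)).symm

theorem EE3 {u : ℕ} (hu : u ≤ n) (A : Finset ℕ) (hA : ∀ c ∈ A, c < n) (q f : ℝ → ℝ) :
    EE p n (fun z => q (ext z (2 * u)) * (∏ c ∈ A, f (ext z (2 * c + 1)))) =
    M1 (ee p n (2 * u)) q * (∏ c ∈ A, M1 (ee p n (2 * c + 1)) f) := by
  classical
  obtain ⟨A', hA'⟩ : ∃ A' : Finset ℕ, A' = A.image (fun c => 2 * c + 1) := ⟨_, rfl⟩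
  obtain ⟨k, hk⟩ : ∃ k : ℕ → ℝ → ℝ, k = fun j => if j = 2 * u then q else f := ⟨_, rfl⟩
  have hinj : Function.Injective fun c : ℕ => 2 * c + 1 := fun a b hab => by
    simp only at hab
    omega
  have hAodd : ∀ j ∈ A', j ≠ 2 * u ∧ j < 2 * n + 1 := by
    intro j hj
    rw [hA', mem_image] at hj
    obtain ⟨c, hc, rfl⟩ := hj
    have := hA c hc
    exact ⟨by omega, by omega⟩
  have hd1 : 2 * u ∉ A' := fun h1 => (hAodd _ h1).1 rfl
  have key : ∀ m : ℕ → (ℝ → ℝ) → ℝ, ∏ j ∈ insert (2 * u) A', m j (k j) =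
      m (2 * u) q * (∏ c ∈ A, m (2 * c + 1) f) := by
    intro m
    rw [prod_insert hd1]
    have e1 : m (2 * u) (k (2 * u)) = m (2 * u) q := by rw [hk]; simp
    have e3 : ∏ j ∈ A', m j (k j) = ∏ c ∈ A, m (2 * c + 1) f := by
      have : ∏ j ∈ A', m j (k j) = ∏ j ∈ A', m j f := by
        refine prod_congr rfl fun j hj => ?_
        rw [hk]
        simp only
        rw [if_neg (hAodd j hj).1]
      rw [this, hA', prod_image fun a _ b _ hab => hinj hab]
    rw [e1, e3]
  have h1 := EE_prod (p := p) (n := n) (insert (2 * u) A') (by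
    intro j hj
    rw [mem_insert] at hj
    rcases hj with h1 | h1
    · omega
    · exact (hAodd _ h1).2) k
  rw [key fun j f => M1 (ee p n j) f] at h1
  rw [← h1]
  congr 1
  funext z
  exact (key fun j f => f (ext z j)).symm

/-! ### bounds for the one dimensional moments -/

theorem ee_odd_ge (c : ℕ) : 3 ≤ ee p n (2 * c + 1) := by
  unfold ee
  rw [if_neg (by omega)]
  omega

theorem ee_odd_le {D c : ℕ} (hp : ∀ i < n, p i ≤ n)
    (hD : ∀ u ≤ n, ((range n).filter (fun c => p c = u)).card ≤ D) (hc : c < n) :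
    ee p n (2 * c + 1) ≤ D + 4 := by
  unfold ee
  rw [if_neg (by omega), show (2 * c + 1) / 2 = c by omega]
  have h1 : ((range n).filter (fun c' => c < c' ∧ p c' = p c)).card ≤ D := by
    refine le_trans (card_le_card ?_) (hD (p c) (hp c hc))
    intro x hx
    rw [mem_filter] at hx ⊢
    exact ⟨hx.1, hx.2.2⟩
  split_ifs <;> omega

theorem ee_even_le (u : ℕ) : ee p n (2 * u) ≤ 2 := by
  unfold ee
  rw [if_pos (by omega)]
  split_ifs <;> omega

theorem M1_cos2_ge (e : ℕ) : 1 / 2 ≤ M1 e (fun s => cos s ^ 2) := by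
  rw [M1_cos2, div_le_div_iff₀ (by norm_num) (by positivity)]
  have : (0 : ℝ) ≤ e := Nat.cast_nonneg e
  linarith

theorem M1_cos4_ge {e : ℕ} (he : 3 ≤ e) : 1 / 2 ≤ M1 e (fun s => cos s ^ 4) := by
  rw [M1_cos4, div_le_div_iff₀ (by norm_num) (by positivity)]
  have : (3 : ℝ) ≤ e := by exact_mod_cast he
  nlinarith

theorem M1_cos_sq (e : ℕ) : M1 e (fun s => cos s ^ 2) ^ 2 ≤ M1 e (fun s => cos s ^ 4) := by
  rw [M1_cos2, M1_cos4, div_pow, div_le_div_iff₀ (by positivity) (by positivity)]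
  have : (0 : ℝ) ≤ e := Nat.cast_nonneg e
  nlinarith [mul_nonneg this this, mul_nonneg this (mul_nonneg this this)]

theorem M1_sin_sq {e : ℕ} (he : 3 ≤ e) : 15 * M1 e (fun s => sin s ^ 2) ^ 2 ≤
    7 * M1 e (fun s => sin s ^ 4) := by
  rw [M1_sin2, M1_sin4, div_pow, one_pow, mul_one_div, mul_div_assoc', div_le_div_iff₀
    (by positivity) (by positivity)]
  have : (3 : ℝ) ≤ e := by exact_mod_cast he
  nlinarith

/-! ### lower bounds for the terms -/

theorem prodM_ge {A : Finset ℕ} {D : ℕ} (hA : A.card ≤ D) {f : ℕ → ℝ}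
    (h : ∀ c ∈ A, 1 / 2 ≤ f c) : (1 / 2 : ℝ) ^ D ≤ ∏ c ∈ A, f c := by
  calc (1 / 2 : ℝ) ^ D ≤ (1 / 2) ^ A.card :=
        pow_le_pow_of_le_one (by norm_num) (by norm_num) hA
    _ = ∏ c ∈ A, (1 / 2 : ℝ) := by rw [prod_const]
    _ ≤ ∏ c ∈ A, f c := prod_le_prod (fun _ _ => by norm_num) h

/-- the constant -/
noncomputable def cD (D : ℕ) : ℝ := (1 / 2) ^ (2 * D + 1) / (D + 6)

theorem cD_pos (D : ℕ) : 0 < cD D := by
  unfold cD
  positivity

theorem cD_le (D : ℕ) : cD D ≤ (1 / 12) * (1 / 2) ^ D := by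
  unfold cD
  have h1 : (0 : ℝ) ≤ D := Nat.cast_nonneg D
  rw [div_le_iff₀ (by positivity)]
  have h2 : ((1 : ℝ) / 2) ^ (2 * D + 1) = (1 / 2) ^ D * (1 / 2) ^ D * (1 / 2) := by
    rw [pow_succ, two_mul, pow_add]
  have h3 : ((1 : ℝ) / 2) ^ D ≤ 1 := pow_le_one₀ (by norm_num) (by norm_num)
  have h4 : (0 : ℝ) < (1 / 2) ^ D := by positivity
  rw [h2]
  nlinarith [mul_le_mul_of_nonneg_left h3 h4.le, mul_nonneg h4.le h1]

theorem setA {u : ℕ} (hp : ∀ i < n, i < p i ∧ p i ≤ n) (hu : u ≤ n) :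
    (∀ c ∈ (range u).filter (fun c => p c = u), c < n) ∧
    (u < n → ∀ c ∈ (range u).filter (fun c => p c = u), c < n ∧ c ≠ u) ∧
    (u < n → ∀ c ∈ (range u).filter (fun c => p c = p u), c < n ∧ c ≠ u) ∧
    (u < n → Disjoint ((range u).filter (fun c => p c = u))
      ((range u).filter (fun c => p c = p u))) := by
  refine ⟨?_, ?_, ?_, ?_⟩
  · intro c hc
    rw [mem_filter, mem_range] at hc
    omega
  · intro _ c hc
    rw [mem_filter, mem_range] at hc
    omega
  · intro _ c hc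
    rw [mem_filter, mem_range] at hc
    omega
  · intro hu'
    rw [disjoint_left]
    intro c hc hc'
    rw [mem_filter, mem_range] at hc hc'
    have := hp u hu'
    omega

theorem cardA {D u : ℕ} (hD : ∀ u ≤ n, ((range n).filter (fun c => p c = u)).card ≤ D)
    (hu : u ≤ n) : ((range u).filter (fun c => p c = u)).card ≤ D := by
  refine le_trans (card_le_card ?_) (hD u hu)
  intro c hc
  rw [mem_filter, mem_range] at hc ⊢
  exact ⟨by omega, hc.2⟩

theorem cardB {D u : ℕ} (hp : ∀ i < n, i < p i ∧ p i ≤ n)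
    (hD : ∀ u ≤ n, ((range n).filter (fun c => p c = u)).card ≤ D)
    (hu : u < n) : ((range u).filter (fun c => p c = p u)).card ≤ D := by
  refine le_trans (card_le_card ?_) (hD (p u) (hp u hu).2)
  intro c hc
  rw [mem_filter, mem_range] at hc ⊢
  exact ⟨by omega, hc.2⟩

theorem EE_odd_term {D : ℕ} (hp : ∀ i < n, i < p i ∧ p i ≤ n)
    (hD : ∀ u ≤ n, ((range n).filter (fun c => p c = u)).card ≤ D) (θ : ℕ → ℝ) {c : ℕ}
    (hc : c < n) :
    cD D * θ (2 * c + 1) ^ 2 ≤ EE p n (fun z => TT p n θ (ext z) (2 * c + 1) ^ 2) := by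
  obtain ⟨hA0, hA, hB, hAB⟩ := setA hp hc.le
  have h1 : EE p n (fun z => TT p n θ (ext z) (2 * c + 1) ^ 2) = θ (2 * c + 1) ^ 2 *
      (M1 (ee p n (2 * c)) (fun s => cos s ^ 2) *
      (∏ c' ∈ (range c).filter (fun c' => p c' = c), M1 (ee p n (2 * c' + 1)) (fun s => cos s ^ 2)) *
      (∏ c' ∈ (range c).filter (fun c' => p c' = p c),
        M1 (ee p n (2 * c' + 1)) (fun s => cos s ^ 2)) *
      M1 (ee p n (2 * c + 1)) (fun s => sin s ^ 2)) := by
    rw [← EE4 hc _ _ (hAB hc) (hA hc) (hB hc), ← EE_smul]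
    congr 1
    funext z
    rw [TT_odd]
    unfold aX sg rho
    simp only [prod_pow]
    ring
  have h2 := prodM_ge (cardA hD hc.le) (f := fun c' => M1 (ee p n (2 * c' + 1)) fun s => cos s ^ 2)
    fun c' _ => M1_cos2_ge _
  have h3 := prodM_ge (cardB hp hD hc) (f := fun c' => M1 (ee p n (2 * c' + 1)) fun s => cos s ^ 2)
    fun c' _ => M1_cos2_ge _
  have h4 : 1 / ((D : ℝ) + 6) ≤ M1 (ee p n (2 * c + 1)) (fun s => sin s ^ 2) := by
    rw [M1_sin2]
    have := ee_odd_le (fun i hi => (hp i hi).2) hD hc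
    have h5 : (ee p n (2 * c + 1) : ℝ) ≤ D + 4 := by exact_mod_cast this
    exact one_div_le_one_div_of_le (by positivity) (by linarith)
  have h5 := M1_cos2_ge (ee p n (2 * c))
  rw [h1]
  have h6 : cD D = (1 / 2 * (1 / 2) ^ D * (1 / 2) ^ D) * (1 / ((D : ℝ) + 6)) := by
    unfold cD
    rw [pow_succ, two_mul, pow_add]
    ring
  rw [h6, mul_comm (θ (2 * c + 1) ^ 2)]
  refine mul_le_mul_of_nonneg_right ?_ (sq_nonneg _)
  refine mul_le_mul ?_ h4 (by positivity) ?_
  · refine mul_le_mul ?_ h3 (by positivity) ?_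
    · exact mul_le_mul h5 h2 (by positivity) (by linarith)
    · exact mul_nonneg (by linarith) (le_trans (by positivity) h2)
  · exact mul_nonneg (mul_nonneg (by linarith) (le_trans (by positivity) h2))
      (le_trans (by positivity) h3)

theorem EE_lin3 {f g h : E (2 * n + 1) → ℝ} (hf : Continuous f) (hg : Continuous g)
    (hh : Continuous h) (a b c : ℝ) : EE p n (fun z => a * f z + b * g z + c * h z) =
      a * EE p n f + b * EE p n g + c * EE p n h := by
  have h1 := EE_add (p := p) (f := fun z => a * f z + b * g z) (g := fun z => c * h z)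
    ((continuous_const.mul hf).add (continuous_const.mul hg)) (continuous_const.mul hh)
  have h2 := EE_add (p := p) (f := fun z => a * f z) (g := fun z => b * g z)
    (continuous_const.mul hf) (continuous_const.mul hg)
  rw [h1, h2, EE_smul, EE_smul, EE_smul]

theorem quad_ge {P4 r S θ b : ℝ} (hS : 0 < S) (h : 15 * r ^ 2 ≤ 7 * (P4 * S)) :
    8 / 15 * P4 * θ ^ 2 ≤ θ ^ 2 * P4 + (-2 * θ * b) * r + b ^ 2 * S := by
  have h1 : 0 ≤ (b * S - θ * r) ^ 2 := sq_nonneg _
  have h2 : S * (8 / 15 * P4 * θ ^ 2) ≤ S * (θ ^ 2 * P4 + (-2 * θ * b) * r + b ^ 2 * S) := by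
    nlinarith [mul_le_mul_of_nonneg_left h (sq_nonneg θ)]
  exact le_of_mul_le_mul_left h2 hS

theorem EE_even_term {D : ℕ} (hp : ∀ i < n, i < p i ∧ p i ≤ n)
    (hD : ∀ u ≤ n, ((range n).filter (fun c => p c = u)).card ≤ D) (θ : ℕ → ℝ) {u : ℕ}
    (hu : u ≤ n) :
    cD D * θ (2 * u) ^ 2 ≤ EE p n (fun z => TT p n θ (ext z) (2 * u) ^ 2) := by
  obtain ⟨hA0, hA, hB, hAB⟩ := setA hp hu
  have hs2 : 1 / 4 ≤ M1 (ee p n (2 * u)) (fun s => sin s ^ 2) := by
    rw [M1_sin2]
    have := ee_even_le (p := p) (n := n) u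
    have h5 : (ee p n (2 * u) : ℝ) ≤ 2 := by exact_mod_cast this
    exact one_div_le_one_div_of_le (by positivity) (by linarith)
  have hP := prodM_ge (cardA hD hu) (f := fun c' => M1 (ee p n (2 * c' + 1)) fun s => cos s ^ 4)
    fun c' _ => M1_cos4_ge (ee_odd_ge c')
  have hfin : cD D * θ (2 * u) ^ 2 ≤ M1 (ee p n (2 * u)) (fun s => sin s ^ 2) * (8 / 15 *
      (∏ c ∈ (range u).filter (fun c => p c = u), M1 (ee p n (2 * c + 1)) (fun s => cos s ^ 4)) *
      θ (2 * u) ^ 2) := by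
    have h1 := cD_le D
    have h2 : 1 / 4 * (8 / 15 * (1 / 2) ^ D) ≤ M1 (ee p n (2 * u)) (fun s => sin s ^ 2) * (8 / 15 *
        (∏ c ∈ (range u).filter (fun c => p c = u),
          M1 (ee p n (2 * c + 1)) (fun s => cos s ^ 4))) := by
      refine mul_le_mul hs2 ?_ (by positivity) (by linarith)
      exact mul_le_mul_of_nonneg_left hP (by norm_num)
    have h3 : (0 : ℝ) < (1 / 2) ^ D := by positivity
    have h4 : cD D ≤ M1 (ee p n (2 * u)) (fun s => sin s ^ 2) * (8 / 15 *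
        (∏ c ∈ (range u).filter (fun c => p c = u),
          M1 (ee p n (2 * c + 1)) (fun s => cos s ^ 4))) := by linarith
    calc _ ≤ _ := mul_le_mul_of_nonneg_right h4 (sq_nonneg (θ (2 * u)))
      _ = _ := by ring
  refine hfin.trans ?_
  rcases Nat.lt_or_ge u n with hun | hun
  · -- inner vertices
    have hr : Continuous fun z : E (2 * n + 1) => rho p (ext z) u u := (rho_smooth _ _).continuous
    have hsg : Continuous fun z : E (2 * n + 1) => sg p (ext z) u := (sg_smooth _).continuous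
    have hsi : Continuous fun z : E (2 * n + 1) => sin (ext z (2 * u)) :=
      continuous_sin.comp (ext_smooth _).continuous
    have e1 : EE p n (fun z => sin (ext z (2 * u)) ^ 2 * rho p (ext z) u u ^ 4) =
        M1 (ee p n (2 * u)) (fun s => sin s ^ 2) *
        (∏ c ∈ (range u).filter (fun c => p c = u), M1 (ee p n (2 * c + 1)) (fun s => cos s ^ 4)) := by
      rw [← EE3 hu _ hA0]
      congr 1
      funext z
      unfold rho
      simp only [prod_pow]
    have e2 : EE p n (fun z => sin (ext z (2 * u)) ^ 2 * rho p (ext z) u u ^ 2 *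
          sg p (ext z) u ^ 2) =
        M1 (ee p n (2 * u)) (fun s => sin s ^ 2) *
        (∏ c ∈ (range u).filter (fun c => p c = u), M1 (ee p n (2 * c + 1)) (fun s => cos s ^ 2)) *
        (∏ c ∈ (range u).filter (fun c => p c = p u), M1 (ee p n (2 * c + 1)) (fun s => cos s ^ 2)) *
        M1 (ee p n (2 * u + 1)) (fun s => sin s ^ 2) := by
      rw [← EE4 hun _ _ (hAB hun) (hA hun) (hB hun)]
      congr 1
      funext z
      unfold sg rho
      simp only [prod_pow]
      ring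
    have e3 : EE p n (fun z => sin (ext z (2 * u)) ^ 2 * sg p (ext z) u ^ 4) =
        M1 (ee p n (2 * u)) (fun s => sin s ^ 2) *
        (∏ c ∈ (range u).filter (fun c => p c = p u), M1 (ee p n (2 * c + 1)) (fun s => cos s ^ 4)) *
        M1 (ee p n (2 * u + 1)) (fun s => sin s ^ 4) := by
      have h := EE4 (p := p) hun _ _ (hAB hun) (hA hun) (hB hun) (fun s => sin s ^ 2) (fun _ => 1)
        (fun s => cos s ^ 4) (fun s => sin s ^ 4)
      simp only [M1_one, prod_const_one, mul_one] at h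
      rw [← h]
      congr 1
      funext z
      unfold sg rho
      simp only [prod_pow]
      ring
    have e0 : EE p n (fun z => TT p n θ (ext z) (2 * u) ^ 2) =
        M1 (ee p n (2 * u)) (fun s => sin s ^ 2) * (θ (2 * u) ^ 2 *
        (∏ c ∈ (range u).filter (fun c => p c = u), M1 (ee p n (2 * c + 1)) (fun s => cos s ^ 4)) +
        (-2 * θ (2 * u) * θ (2 * p u)) * ((∏ c ∈ (range u).filter (fun c => p c = u),
          M1 (ee p n (2 * c + 1)) (fun s => cos s ^ 2)) *
        (∏ c ∈ (range u).filter (fun c => p c = p u), M1 (ee p n (2 * c + 1)) (fun s => cos s ^ 2)) *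
        M1 (ee p n (2 * u + 1)) (fun s => sin s ^ 2)) + θ (2 * p u) ^ 2 *
        ((∏ c ∈ (range u).filter (fun c => p c = p u),
          M1 (ee p n (2 * c + 1)) (fun s => cos s ^ 4)) *
        M1 (ee p n (2 * u + 1)) (fun s => sin s ^ 4))) := by
      have h1 : (fun z : E (2 * n + 1) => TT p n θ (ext z) (2 * u) ^ 2) = fun z =>
          (θ (2 * u) ^ 2 * (sin (ext z (2 * u)) ^ 2 * rho p (ext z) u u ^ 4) +
          (-2 * θ (2 * u) * θ (2 * p u)) * (sin (ext z (2 * u)) ^ 2 * rho p (ext z) u u ^ 2 *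
            sg p (ext z) u ^ 2)) +
          θ (2 * p u) ^ 2 * (sin (ext z (2 * u)) ^ 2 * sg p (ext z) u ^ 4) := by
        funext z
        rw [TT_even, if_pos hun]
        ring
      rw [h1, EE_lin3 (f := fun z => sin (ext z (2 * u)) ^ 2 * rho p (ext z) u u ^ 4)
        (g := fun z => sin (ext z (2 * u)) ^ 2 * rho p (ext z) u u ^ 2 * sg p (ext z) u ^ 2)
        (h := fun z => sin (ext z (2 * u)) ^ 2 * sg p (ext z) u ^ 4)
        ((hsi.pow 2).mul (hr.pow 4)) (((hsi.pow 2).mul (hr.pow 2)).mul (hsg.pow 2))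
        ((hsi.pow 2).mul (hsg.pow 4)),
        e1, e2, e3]
      ring
    rw [e0]
    refine mul_le_mul_of_nonneg_left ?_ (by linarith)
    have hQ := prodM_ge (cardB hp hD hun)
      (f := fun c' => M1 (ee p n (2 * c' + 1)) fun s => cos s ^ 4)
      fun c' _ => M1_cos4_ge (ee_odd_ge c')
    have hs4 : 0 < M1 (ee p n (2 * u + 1)) (fun s => sin s ^ 4) := by
      rw [M1_sin4]
      positivity
    refine quad_ge (mul_pos (lt_of_lt_of_le (by positivity) hQ) hs4) ?_
    have h1 : (∏ c ∈ (range u).filter (fun c => p c = u),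
        M1 (ee p n (2 * c + 1)) (fun s => cos s ^ 2)) ^ 2 ≤
        ∏ c ∈ (range u).filter (fun c => p c = u),
          M1 (ee p n (2 * c + 1)) (fun s => cos s ^ 4) := by
      rw [← prod_pow]
      exact prod_le_prod (fun _ _ => sq_nonneg _) fun c _ => M1_cos_sq _
    have h2 : (∏ c ∈ (range u).filter (fun c => p c = p u),
        M1 (ee p n (2 * c + 1)) (fun s => cos s ^ 2)) ^ 2 ≤
        ∏ c ∈ (range u).filter (fun c => p c = p u),
          M1 (ee p n (2 * c + 1)) (fun s => cos s ^ 4) := by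
      rw [← prod_pow]
      exact prod_le_prod (fun _ _ => sq_nonneg _) fun c _ => M1_cos_sq _
    have h3 := M1_sin_sq (ee_odd_ge (p := p) (n := n) u)
    rw [mul_pow, mul_pow]
    calc _ = (∏ c ∈ (range u).filter (fun c => p c = u),
        M1 (ee p n (2 * c + 1)) (fun s => cos s ^ 2)) ^ 2 *
        (∏ c ∈ (range u).filter (fun c => p c = p u),
        M1 (ee p n (2 * c + 1)) (fun s => cos s ^ 2)) ^ 2 *
        (15 * M1 (ee p n (2 * u + 1)) (fun s => sin s ^ 2) ^ 2) := by ring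
      _ ≤ (∏ c ∈ (range u).filter (fun c => p c = u),
          M1 (ee p n (2 * c + 1)) (fun s => cos s ^ 4)) *
          (∏ c ∈ (range u).filter (fun c => p c = p u),
          M1 (ee p n (2 * c + 1)) (fun s => cos s ^ 4)) *
          (7 * M1 (ee p n (2 * u + 1)) (fun s => sin s ^ 4)) := by
        refine mul_le_mul ?_ h3 (by positivity) ?_
        · exact mul_le_mul h1 h2 (sq_nonneg _) (le_trans (by positivity) hP)
        · exact mul_nonneg (le_trans (by positivity) hP) (le_trans (by positivity) hQ)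
      _ = _ := by ring
  · have hun' : u = n := by omega
    subst hun'
    have e0 : EE p u (fun z => TT p u θ (ext z) (2 * u) ^ 2) =
        θ (2 * u) ^ 2 * (M1 (ee p u (2 * u)) (fun s => sin s ^ 2) *
        (∏ c ∈ (range u).filter (fun c => p c = u),
          M1 (ee p u (2 * c + 1)) (fun s => cos s ^ 4))) := by
      rw [← EE3 le_rfl _ hA0, ← EE_smul]
      congr 1
      funext z
      rw [TT_even, if_neg (lt_irrefl u)]
      unfold rho
      simp only [prod_pow]
      ring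
    rw [e0]
    have h1 : 0 ≤ M1 (ee p u (2 * u)) (fun s => sin s ^ 2) *
        (∏ c ∈ (range u).filter (fun c => p c = u),
          M1 (ee p u (2 * c + 1)) (fun s => cos s ^ 4)) :=
      mul_nonneg (by linarith) (le_trans (by positivity) hP)
    nlinarith [mul_nonneg h1 (sq_nonneg (θ (2 * u)))]

/-- the lower bound -/
theorem EE_lower {D : ℕ} (hp : ∀ i < n, i < p i ∧ p i ≤ n)
    (hD : ∀ u ≤ n, ((range n).filter (fun c => p c = u)).card ≤ D) (θ : ℕ → ℝ) :
    cD D * ∑ j ∈ range (2 * n + 1), θ j ^ 2 ≤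
      EE p n (fun z => (∑ j ∈ range (2 * n + 1), θ j * X p (ext z) j) ^ 2) := by
  rw [EE_sq hp, mul_sum]
  refine sum_le_sum fun j hj => ?_
  rw [mem_range] at hj
  rcases Nat.even_or_odd' j with ⟨u, rfl | rfl⟩
  · exact EE_even_term hp hD θ (by omega)
  · exact EE_odd_term hp hD θ (by omega)

end Pool.Agent.V7H40.TR
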