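import Pool.Agent.V7H40.TR.Alg

/-!
# Trees: the map from the parameters to the matrices is smooth and Lipschitz
-/

set_option autoImplicit false

namespace Pool.Agent.V7H40.TR

open Finset Real

variable {p : ℕ → ℕ} {t t' : ℕ → ℝ}

theorem prod_abs_le_one {ι : Type*} (s : Finset ι) (f : ι → ℝ) (h : ∀ i ∈ s, |f i| ≤ 1) :
    |∏ i ∈ s, f i| ≤ 1 := by
  rw [abs_prod]
  exact prod_le_one (fun i _ => abs_nonneg _) h

theorem rho_abs (u k : ℕ) : |rho p t u k| ≤ 1 := prod_abs_le_one _ _ fun _ _ => abs_cos_le_one _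

theorem sg_abs (c : ℕ) : |sg p t c| ≤ 1 := by
  unfold sg
  rw [abs_mul]
  exact mul_le_one₀ (rho_abs _ _) (abs_nonneg _) (abs_sin_le_one _)

/-- product rule for differences -/
theorem mul_diff {a b a' b' : ℝ} (ha : |a| ≤ 1) (hb : |b'| ≤ 1) :
    |a * b - a' * b'| ≤ |a - a'| + |b - b'| := by
  have h1 : a * b - a' * b' = a * (b - b') + (a - a') * b' := by ring
  rw [h1]
  refine (abs_add_le _ _).trans ?_
  rw [abs_mul, abs_mul]
  have h2 : |a| * |b - b'| ≤ 1 * |b - b'| := mul_le_mul_of_nonneg_right ha (abs_nonneg _)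
  have h3 : |a - a'| * |b'| ≤ |a - a'| * 1 := mul_le_mul_of_nonneg_left hb (abs_nonneg _)
  linarith

theorem prod_diff {ι : Type*} [DecidableEq ι] (s : Finset ι) (f g : ι → ℝ)
    (hf : ∀ i ∈ s, |f i| ≤ 1) (hg : ∀ i ∈ s, |g i| ≤ 1) :
    |∏ i ∈ s, f i - ∏ i ∈ s, g i| ≤ ∑ i ∈ s, |f i - g i| := by
  induction s using Finset.induction_on with
  | empty => simp
  | insert a s ha ih =>
    rw [prod_insert ha, prod_insert ha, sum_insert ha]
    have h1 := ih (fun i hi => hf i (mem_insert_of_mem hi)) fun i hi => hg i (mem_insert_of_mem hi)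
    have h2 := prod_abs_le_one s g fun i hi => hg i (mem_insert_of_mem hi)
    have h3 := mul_diff (a := f a) (b := ∏ i ∈ s, f i) (a' := g a) (b' := ∏ i ∈ s, g i)
      (hf a (mem_insert_self _ _)) h2
    linarith

theorem cos_diff (a b : ℝ) : |cos a - cos b| ≤ |a - b| := by
  have h := Real.abs_cos_sub_cos_le a b
  exact h

theorem sin_diff (a b : ℝ) : |sin a - sin b| ≤ |a - b| := by
  have h := Real.abs_sin_sub_sin_le a b
  exact h

theorem rho_diff (u k : ℕ) : |rho p t u k - rho p t' u k| ≤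
    ∑ c ∈ (range k).filter (fun c => p c = u), |t (2 * c + 1) - t' (2 * c + 1)| := by
  unfold rho
  refine (prod_diff _ _ _ (fun _ _ => abs_cos_le_one _) fun _ _ => abs_cos_le_one _).trans ?_
  exact sum_le_sum fun c _ => cos_diff _ _

theorem sg_diff (c : ℕ) : |sg p t c - sg p t' c| ≤
    (∑ c' ∈ (range c).filter (fun c' => p c' = p c), |t (2 * c' + 1) - t' (2 * c' + 1)|) +
      |t (2 * c + 1) - t' (2 * c + 1)| := by
  unfold sg
  refine (mul_diff (rho_abs _ _) (abs_sin_le_one _)).trans ?_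
  exact add_le_add (rho_diff _ _) (sin_diff _ _)

/-- sums over the children -/
noncomputable def SS (p : ℕ → ℕ) (n : ℕ) (t t' : ℕ → ℝ) (u : ℕ) : ℝ :=
  ∑ c ∈ (range n).filter (fun c => p c = u),
    (|t (2 * c + 1) - t' (2 * c + 1)| + |t (2 * c) - t' (2 * c)|)

noncomputable def DD (p : ℕ → ℕ) (n : ℕ) (t t' : ℕ → ℝ) (u : ℕ) : ℝ :=
  ∑ c ∈ (range n).filter (fun c => p c = u),
    ((t (2 * c + 1) - t' (2 * c + 1)) ^ 2 + (t (2 * c) - t' (2 * c)) ^ 2)

theorem SS_nonneg (n u : ℕ) : 0 ≤ SS p n t t' u :=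
  sum_nonneg fun _ _ => add_nonneg (abs_nonneg _) (abs_nonneg _)

theorem DD_nonneg (n u : ℕ) : 0 ≤ DD p n t t' u :=
  sum_nonneg fun _ _ => add_nonneg (sq_nonneg _) (sq_nonneg _)

theorem sum_le_SS {n k u : ℕ} (hk : k ≤ n) :
    ∑ c ∈ (range k).filter (fun c => p c = u), |t (2 * c + 1) - t' (2 * c + 1)| ≤
      SS p n t t' u := by
  unfold SS
  calc _ ≤ ∑ c ∈ (range k).filter (fun c => p c = u),
        (|t (2 * c + 1) - t' (2 * c + 1)| + |t (2 * c) - t' (2 * c)|) :=
        sum_le_sum fun c _ => le_add_of_nonneg_right (abs_nonneg _)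
    _ ≤ _ := by
        refine sum_le_sum_of_subset_of_nonneg (filter_subset_filter _ (range_subset_range.2 hk))
          fun c _ _ => add_nonneg (abs_nonneg _) (abs_nonneg _)

theorem sg_diff' {n c : ℕ} (hc : c < n) : |sg p t c - sg p t' c| ≤ SS p n t t' (p c) := by
  refine (sg_diff c).trans ?_
  have h1 : (range (c + 1)).filter (fun c' => p c' = p c) =
      insert c ((range c).filter (fun c' => p c' = p c)) := by
    rw [range_add_one, filter_insert, if_pos rfl]
  have h2 : c ∉ (range c).filter (fun c' => p c' = p c) := by simp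
  have h3 := sum_le_SS (p := p) (t := t) (t' := t') (u := p c) (Nat.succ_le_of_lt hc)
  rw [Nat.succ_eq_add_one, h1, sum_insert h2] at h3
  linarith

theorem aX_diff {n c : ℕ} (hc : c < n) : |aX p t c - aX p t' c| ≤
    SS p n t t' c + |t (2 * c) - t' (2 * c)| + SS p n t t' (p c) := by
  unfold aX
  have h1 : |rho p t c c * cos (t (2 * c))| ≤ 1 := by
    rw [abs_mul]
    exact mul_le_one₀ (rho_abs _ _) (abs_nonneg _) (abs_cos_le_one _)
  refine (mul_diff h1 (sg_abs _)).trans ?_
  have h2 := mul_diff (a := rho p t c c) (b := cos (t (2 * c))) (a' := rho p t' c c)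
    (b' := cos (t' (2 * c))) (rho_abs _ _) (abs_cos_le_one _)
  have h3 := (rho_diff (p := p) (t := t) (t' := t') c c).trans (sum_le_SS hc.le)
  have h4 := cos_diff (t (2 * c)) (t' (2 * c))
  have h5 := sg_diff' (p := p) (t := t) (t' := t') hc
  linarith

theorem sq_diff {a b : ℝ} (ha : |a| ≤ 1) (hb : |b| ≤ 1) : |a ^ 2 - b ^ 2| ≤ 2 * |a - b| := by
  have h1 : a ^ 2 - b ^ 2 = (a + b) * (a - b) := by ring
  rw [h1, abs_mul]
  have h2 : |a + b| ≤ 2 := (abs_add_le a b).trans (by linarith)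
  exact mul_le_mul_of_nonneg_right h2 (abs_nonneg _)

theorem sq_abs_le {a : ℝ} (ha : |a| ≤ 1) : |a ^ 2| ≤ 1 := by
  rw [abs_pow]
  exact pow_le_one₀ (abs_nonneg _) ha

theorem bX_diff {n u D : ℕ} (hu : u ≤ n) (hD : ((range n).filter (fun c => p c = u)).card ≤ D) :
    |bX p t u - bX p t' u| ≤ |t (2 * u) - t' (2 * u)| + (3 + 2 * D) * SS p n t t' u := by
  have hS := SS_nonneg (p := p) (t := t) (t' := t') n u
  have h1 : |rho p t u u ^ 2 * sin (t (2 * u)) - rho p t' u u ^ 2 * sin (t' (2 * u))| ≤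
      2 * SS p n t t' u + |t (2 * u) - t' (2 * u)| := by
    refine (mul_diff (sq_abs_le (rho_abs _ _)) (abs_sin_le_one _)).trans ?_
    have h2 := sq_diff (rho_abs (p := p) (t := t) u u) (rho_abs (p := p) (t := t') u u)
    have h3 := (rho_diff (p := p) (t := t) (t' := t') u u).trans (sum_le_SS hu)
    have h4 := sin_diff (t (2 * u)) (t' (2 * u))
    linarith
  have h2 : |∑ c ∈ (range u).filter (fun c => p c = u), sg p t c ^ 2 * sin (t (2 * c)) -
      ∑ c ∈ (range u).filter (fun c => p c = u), sg p t' c ^ 2 * sin (t' (2 * c))| ≤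
      (1 + 2 * D) * SS p n t t' u := by
    rw [← sum_sub_distrib]
    refine (abs_sum_le_sum_abs _ _).trans ?_
    have h3 : ∀ c ∈ (range u).filter (fun c => p c = u),
        |sg p t c ^ 2 * sin (t (2 * c)) - sg p t' c ^ 2 * sin (t' (2 * c))| ≤
        2 * SS p n t t' u + |t (2 * c) - t' (2 * c)| := by
      intro c hc
      rw [mem_filter, mem_range] at hc
      refine (mul_diff (sq_abs_le (sg_abs _)) (abs_sin_le_one _)).trans ?_
      have h4 := sq_diff (sg_abs (p := p) (t := t) c) (sg_abs (p := p) (t := t') c)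
      have h5 := sg_diff' (p := p) (t := t) (t' := t') (show c < n by omega)
      rw [hc.2] at h5
      have h6 := sin_diff (t (2 * c)) (t' (2 * c))
      linarith
    refine (sum_le_sum h3).trans ?_
    rw [sum_add_distrib, sum_const, nsmul_eq_mul]
    have h7 : (((range u).filter (fun c => p c = u)).card : ℝ) ≤ D := by
      have : ((range u).filter (fun c => p c = u)).card ≤
          ((range n).filter (fun c => p c = u)).card :=
        card_le_card (filter_subset_filter _ (range_subset_range.2 hu))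
      exact_mod_cast this.trans hD
    have h8 : ∑ c ∈ (range u).filter (fun c => p c = u), |t (2 * c) - t' (2 * c)| ≤
        SS p n t t' u := by
      unfold SS
      calc _ ≤ ∑ c ∈ (range u).filter (fun c => p c = u),
            (|t (2 * c + 1) - t' (2 * c + 1)| + |t (2 * c) - t' (2 * c)|) :=
            sum_le_sum fun c _ => le_add_of_nonneg_left (abs_nonneg _)
        _ ≤ _ := by
            refine sum_le_sum_of_subset_of_nonneg (filter_subset_filter _
              (range_subset_range.2 hu)) fun c _ _ => add_nonneg (abs_nonneg _) (abs_nonneg _)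
    have h9 : (((range u).filter (fun c => p c = u)).card : ℝ) * (2 * SS p n t t' u) ≤
        D * (2 * SS p n t t' u) := mul_le_mul_of_nonneg_right h7 (by linarith)
    linarith
  unfold bX
  have h3 : ∀ a b a' b' : ℝ, |a - b - (a' - b')| ≤ |a - a'| + |b - b'| := by
    intro a b a' b'
    have : a - b - (a' - b') = (a - a') - (b - b') := by ring
    rw [this]
    exact abs_sub _ _
  refine (h3 _ _ _ _).trans ?_
  linarith

theorem SS_sq {n u D : ℕ} (hD : ((range n).filter (fun c => p c = u)).card ≤ D) :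
    SS p n t t' u ^ 2 ≤ 2 * D * DD p n t t' u := by
  unfold SS DD
  refine (sq_sum_le_card_mul_sum_sq).trans ?_
  have h1 : ∑ c ∈ (range n).filter (fun c => p c = u),
      (|t (2 * c + 1) - t' (2 * c + 1)| + |t (2 * c) - t' (2 * c)|) ^ 2 ≤
      2 * ∑ c ∈ (range n).filter (fun c => p c = u),
        ((t (2 * c + 1) - t' (2 * c + 1)) ^ 2 + (t (2 * c) - t' (2 * c)) ^ 2) := by
    rw [mul_sum]
    refine sum_le_sum fun c _ => ?_
    rw [← sq_abs (t (2 * c + 1) - t' (2 * c + 1)), ← sq_abs (t (2 * c) - t' (2 * c))]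
    nlinarith [sq_nonneg (|t (2 * c + 1) - t' (2 * c + 1)| - |t (2 * c) - t' (2 * c)|)]
  have h2 : (((range n).filter (fun c => p c = u)).card : ℝ) ≤ D := by exact_mod_cast hD
  have h3 : 0 ≤ ∑ c ∈ (range n).filter (fun c => p c = u),
        ((t (2 * c + 1) - t' (2 * c + 1)) ^ 2 + (t (2 * c) - t' (2 * c)) ^ 2) :=
    sum_nonneg fun _ _ => add_nonneg (sq_nonneg _) (sq_nonneg _)
  calc _ ≤ (((range n).filter (fun c => p c = u)).card : ℝ) *
        (2 * ∑ c ∈ (range n).filter (fun c => p c = u),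
        ((t (2 * c + 1) - t' (2 * c + 1)) ^ 2 + (t (2 * c) - t' (2 * c)) ^ 2)) :=
        mul_le_mul_of_nonneg_left h1 (Nat.cast_nonneg _)
    _ ≤ D * (2 * ∑ c ∈ (range n).filter (fun c => p c = u),
        ((t (2 * c + 1) - t' (2 * c + 1)) ^ 2 + (t (2 * c) - t' (2 * c)) ^ 2)) :=
        mul_le_mul_of_nonneg_right h2 (by linarith)
    _ = _ := by ring

/-- splitting a sum according to parity -/
theorem sum_parity (f : ℕ → ℝ) (n : ℕ) : ∑ j ∈ range (2 * n + 1), f j =
    ∑ u ∈ range (n + 1), f (2 * u) + ∑ c ∈ range n, f (2 * c + 1) := by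
  induction n with
  | zero => simp
  | succ n ih =>
    rw [show 2 * (n + 1) + 1 = 2 * n + 1 + 1 + 1 by ring, sum_range_succ, sum_range_succ, ih,
      sum_range_succ (fun u => f (2 * u)) (n + 1), sum_range_succ (fun c => f (2 * c + 1)) n]
    rw [show 2 * n + 1 + 1 = 2 * (n + 1) by ring]
    ring

theorem prod_parity (f : ℕ → ℝ) (n : ℕ) : ∏ j ∈ range (2 * n + 1), f j =
    (∏ u ∈ range (n + 1), f (2 * u)) * ∏ c ∈ range n, f (2 * c + 1) := by
  induction n with
  | zero => simp
  | succ n ih =>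
    rw [show 2 * (n + 1) + 1 = 2 * n + 1 + 1 + 1 by ring, prod_range_succ, prod_range_succ, ih,
      prod_range_succ (fun u => f (2 * u)) (n + 1), prod_range_succ (fun c => f (2 * c + 1)) n]
    rw [show 2 * n + 1 + 1 = 2 * (n + 1) by ring]
    ring

/-- the Lipschitz constant, squared -/
def LC (D : ℕ) : ℝ := 2 + 4 * D * (3 + 2 * D) ^ 2 + 6 * D + 3 + 6 * D ^ 2

theorem LC_nonneg (D : ℕ) : 0 ≤ LC D := by unfold LC; positivity

theorem X_lip {n D : ℕ} (hp : ∀ i < n, p i ≤ n)
    (hD : ∀ u ≤ n, ((range n).filter (fun c => p c = u)).card ≤ D) :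
    ∑ j ∈ range (2 * n + 1), (X p t j - X p t' j) ^ 2 ≤
      LC D * ∑ j ∈ range (2 * n + 1), (t j - t' j) ^ 2 := by
  obtain ⟨T, hT⟩ : ∃ T : ℝ, T = ∑ j ∈ range (2 * n + 1), (t j - t' j) ^ 2 := ⟨_, rfl⟩
  have hT1 := sum_parity (fun j => (t j - t' j) ^ 2) n
  rw [← hT] at hT1 ⊢
  have hev : ∑ u ∈ range (n + 1), (t (2 * u) - t' (2 * u)) ^ 2 ≤ T := by
    rw [hT1]
    exact le_add_of_nonneg_right (sum_nonneg fun _ _ => sq_nonneg _)
  have hev' : ∑ u ∈ range n, (t (2 * u) - t' (2 * u)) ^ 2 ≤ T := by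
    rw [sum_range_succ] at hev
    have := sq_nonneg (t (2 * n) - t' (2 * n))
    linarith
  have hDD : ∑ u ∈ range (n + 1), DD p n t t' u ≤ T := by
    unfold DD
    have h1 : ∀ c ∈ range n, p c ∈ range (n + 1) := by
      intro c hc
      rw [mem_range] at hc ⊢
      have := hp c hc
      omega
    rw [sum_fiberwise_of_maps_to h1 (fun c => ((t (2 * c + 1) - t' (2 * c + 1)) ^ 2 +
      (t (2 * c) - t' (2 * c)) ^ 2)), sum_add_distrib]
    rw [hT1, sum_range_succ]
    have := sq_nonneg (t (2 * n) - t' (2 * n))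
    linarith
  have hDD' : ∑ u ∈ range n, DD p n t t' u ≤ T := by
    rw [sum_range_succ] at hDD
    have := DD_nonneg (p := p) (t := t) (t' := t') n n
    linarith
  have hDp : ∑ c ∈ range n, DD p n t t' (p c) ≤ D * T := by
    have h1 : ∀ c ∈ range n, p c ∈ range (n + 1) := by
      intro c hc
      rw [mem_range] at hc ⊢
      have := hp c hc
      omega
    rw [← sum_fiberwise_of_maps_to h1]
    have h2 : ∀ w ∈ range (n + 1), ∑ c ∈ (range n).filter (fun c => p c = w),
        DD p n t t' (p c) ≤ D * DD p n t t' w := by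
      intro w hw
      rw [mem_range] at hw
      have h3 : ∑ c ∈ (range n).filter (fun c => p c = w), DD p n t t' (p c) =
          ∑ c ∈ (range n).filter (fun c => p c = w), DD p n t t' w :=
        sum_congr rfl fun c hc => by rw [(mem_filter.1 hc).2]
      rw [h3, sum_const, nsmul_eq_mul]
      refine mul_le_mul_of_nonneg_right ?_ (DD_nonneg _ _)
      exact_mod_cast hD w (by omega)
    refine (sum_le_sum h2).trans ?_
    rw [← mul_sum]
    exact mul_le_mul_of_nonneg_left hDD (Nat.cast_nonneg _)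
  rw [sum_parity]
  have hb : ∑ u ∈ range (n + 1), (X p t (2 * u) - X p t' (2 * u)) ^ 2 ≤
      2 * T + 4 * D * (3 + 2 * D) ^ 2 * T := by
    have h1 : ∀ u ∈ range (n + 1), (X p t (2 * u) - X p t' (2 * u)) ^ 2 ≤
        2 * (t (2 * u) - t' (2 * u)) ^ 2 + 4 * D * (3 + 2 * D) ^ 2 * DD p n t t' u := by
      intro u hu
      rw [mem_range] at hu
      rw [X_even, X_even, ← sq_abs (bX p t u - bX p t' u), ← sq_abs (t (2 * u) - t' (2 * u))]
      have h2 := bX_diff (p := p) (t := t) (t' := t') (show u ≤ n by omega) (hD u (by omega))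
      have h3 := SS_sq (p := p) (t := t) (t' := t') (hD u (by omega))
      have h4 := SS_nonneg (p := p) (t := t) (t' := t') n u
      have h5 : |bX p t u - bX p t' u| ^ 2 ≤
          (|t (2 * u) - t' (2 * u)| + (3 + 2 * D) * SS p n t t' u) ^ 2 :=
        pow_le_pow_left₀ (abs_nonneg _) h2 2
      have h6 : (|t (2 * u) - t' (2 * u)| + (3 + 2 * D) * SS p n t t' u) ^ 2 ≤
          2 * |t (2 * u) - t' (2 * u)| ^ 2 + 2 * ((3 + 2 * D) * SS p n t t' u) ^ 2 := by
        nlinarith [sq_nonneg (|t (2 * u) - t' (2 * u)| - (3 + 2 * D) * SS p n t t' u)]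
      have h7 : 2 * ((3 + 2 * (D : ℝ)) * SS p n t t' u) ^ 2 ≤
          2 * (3 + 2 * D) ^ 2 * (2 * D * DD p n t t' u) := by
        rw [mul_pow, ← mul_assoc]
        exact mul_le_mul_of_nonneg_left h3 (by positivity)
      linarith
    refine (sum_le_sum h1).trans ?_
    rw [sum_add_distrib, ← mul_sum, ← mul_sum]
    have h2 : 4 * (D : ℝ) * (3 + 2 * D) ^ 2 * ∑ u ∈ range (n + 1), DD p n t t' u ≤
        4 * D * (3 + 2 * D) ^ 2 * T := mul_le_mul_of_nonneg_left hDD (by positivity)
    linarith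
  have ha : ∑ c ∈ range n, (X p t (2 * c + 1) - X p t' (2 * c + 1)) ^ 2 ≤
      6 * D * T + 3 * T + 6 * D ^ 2 * T := by
    have h1 : ∀ c ∈ range n, (X p t (2 * c + 1) - X p t' (2 * c + 1)) ^ 2 ≤
        6 * D * DD p n t t' c + 3 * (t (2 * c) - t' (2 * c)) ^ 2 + 6 * D * DD p n t t' (p c) := by
      intro c hc
      rw [mem_range] at hc
      rw [X_odd, X_odd, ← sq_abs (aX p t c - aX p t' c), ← sq_abs (t (2 * c) - t' (2 * c))]
      have h2 := aX_diff (p := p) (t := t) (t' := t') hc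
      have h3 := SS_sq (p := p) (t := t) (t' := t') (hD c (by omega))
      have h3' := SS_sq (p := p) (t := t) (t' := t') (hD (p c) (hp c hc))
      have h5 : |aX p t c - aX p t' c| ^ 2 ≤
          (SS p n t t' c + |t (2 * c) - t' (2 * c)| + SS p n t t' (p c)) ^ 2 :=
        pow_le_pow_left₀ (abs_nonneg _) h2 2
      have h6 : (SS p n t t' c + |t (2 * c) - t' (2 * c)| + SS p n t t' (p c)) ^ 2 ≤
          3 * SS p n t t' c ^ 2 + 3 * |t (2 * c) - t' (2 * c)| ^ 2 +
            3 * SS p n t t' (p c) ^ 2 := by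
        nlinarith [sq_nonneg (SS p n t t' c - |t (2 * c) - t' (2 * c)|),
          sq_nonneg (SS p n t t' c - SS p n t t' (p c)),
          sq_nonneg (|t (2 * c) - t' (2 * c)| - SS p n t t' (p c))]
      linarith
    refine (sum_le_sum h1).trans ?_
    rw [sum_add_distrib, sum_add_distrib, ← mul_sum, ← mul_sum, ← mul_sum]
    have h2 : 6 * (D : ℝ) * ∑ u ∈ range n, DD p n t t' u ≤ 6 * D * T :=
      mul_le_mul_of_nonneg_left hDD' (by positivity)
    have h3 : 6 * (D : ℝ) * ∑ u ∈ range n, DD p n t t' (p u) ≤ 6 * D * (D * T) :=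
      mul_le_mul_of_nonneg_left hDp (by positivity)
    linarith
  unfold LC
  linarith

end Pool.Agent.V7H40.TR
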