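import Pool.Agent.V7H40.TR.Alg2
import Pool.Agent.V7H40.TR.Lip

/-!
# Trees: the map from the parameters to the matrices, change of variables
-/

set_option autoImplicit false

namespace Pool.Agent.V7H40.TR

open Finset Real MeasureTheory
open scoped ENNReal

/-- Euclidean space -/
abbrev E (N : ℕ) : Type := EuclideanSpace ℝ (Fin N)

/-- the coordinates as a sequence -/
noncomputable def ext {N : ℕ} (z : E N) (k : ℕ) : ℝ := if h : k < N then z ⟨k, h⟩ else 0

theorem ext_lt {N : ℕ} (z : E N) {k : ℕ} (h : k < N) : ext z k = z ⟨k, h⟩ := dif_pos h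

theorem ext_fin {N : ℕ} (z : E N) (k : Fin N) : ext z k = z k := by
  rw [ext_lt z k.2]

variable {p : ℕ → ℕ} {n : ℕ}

/-- the map -/
noncomputable def F (p : ℕ → ℕ) (N : ℕ) (z : E N) : E N :=
  WithLp.toLp 2 fun j : Fin N => X p (ext z) j

theorem F_apply (N : ℕ) (z : E N) (j : Fin N) : F p N z j = X p (ext z) j := rfl

theorem ext_F {N : ℕ} (z : E N) {j : ℕ} (h : j < N) : ext (F p N z) j = X p (ext z) j := by
  rw [ext_lt _ h, F_apply]

theorem ext_smooth {N : ℕ} (k : ℕ) : ContDiff ℝ 1 fun z : E N => ext z k := by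
  by_cases h : k < N
  · have : (fun z : E N => ext z k) = fun z : E N => z ⟨k, h⟩ := by
      funext z
      exact ext_lt z h
    rw [this]
    fun_prop
  · have : (fun z : E N => ext z k) = fun _ => 0 := by
      funext z
      exact dif_neg h
    rw [this]
    exact contDiff_const

theorem rho_smooth {N : ℕ} (u k : ℕ) : ContDiff ℝ 1 fun z : E N => rho p (ext z) u k := by
  unfold rho
  exact contDiff_prod fun c _ => (ext_smooth _).cos

theorem sg_smooth {N : ℕ} (c : ℕ) : ContDiff ℝ 1 fun z : E N => sg p (ext z) c := by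
  unfold sg
  exact (rho_smooth _ _).mul (ext_smooth _).sin

theorem X_smooth {N : ℕ} (j : ℕ) : ContDiff ℝ 1 fun z : E N => X p (ext z) j := by
  rcases Nat.even_or_odd' j with ⟨u, rfl | rfl⟩
  · have : (fun z : E N => X p (ext z) (2 * u)) = fun z : E N => bX p (ext z) u := by
      funext z
      exact X_even u
    rw [this]
    unfold bX
    refine ((rho_smooth _ _).pow 2).mul (ext_smooth _).sin |>.sub ?_
    exact ContDiff.sum fun c _ => ((sg_smooth _).pow 2).mul (ext_smooth _).sin
  · have : (fun z : E N => X p (ext z) (2 * u + 1)) = fun z : E N => aX p (ext z) u := by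
      funext z
      exact X_odd u
    rw [this]
    unfold aX
    exact ((rho_smooth _ _).mul (ext_smooth _).cos).mul (sg_smooth _)

theorem F_smooth (N : ℕ) : ContDiff ℝ 1 (F p N) := by
  rw [contDiff_euclidean]
  intro j
  exact X_smooth j

theorem norm_sq_ext {N : ℕ} (z z' : E N) : ‖z - z'‖ ^ 2 = ∑ j ∈ range N, (ext z j - ext z' j) ^ 2 := by
  rw [EuclideanSpace.norm_sq_eq, ← Fin.sum_univ_eq_sum_range (fun j => (ext z j - ext z' j) ^ 2)]
  refine sum_congr rfl fun j _ => ?_
  rw [ext_fin, ext_fin, Real.norm_eq_abs, sq_abs]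
  rfl

theorem F_lip {D : ℕ} (hp : ∀ i < n, p i ≤ n)
    (hD : ∀ u ≤ n, ((range n).filter (fun c => p c = u)).card ≤ D) (z z' : E (2 * n + 1)) :
    ‖F p (2 * n + 1) z - F p (2 * n + 1) z'‖ ≤ Real.sqrt (LC D) * ‖z - z'‖ := by
  refine (pow_le_pow_iff_left₀ (norm_nonneg _) (by positivity) two_ne_zero).1 ?_
  rw [mul_pow, Real.sq_sqrt (LC_nonneg D), norm_sq_ext, norm_sq_ext]
  refine le_trans (le_of_eq ?_) (X_lip (t := ext z) (t' := ext z') hp hD)
  refine sum_congr rfl fun j hj => ?_
  rw [mem_range] at hj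
  rw [ext_F z hj, ext_F z' hj]

theorem F_fderiv {D : ℕ} (hp : ∀ i < n, p i ≤ n)
    (hD : ∀ u ≤ n, ((range n).filter (fun c => p c = u)).card ≤ D) (z : E (2 * n + 1)) :
    ‖fderiv ℝ (F p (2 * n + 1)) z‖ ≤ Real.sqrt (LC D) := by
  have h : LipschitzWith ⟨Real.sqrt (LC D), Real.sqrt_nonneg _⟩ (F p (2 * n + 1)) := by
    refine LipschitzWith.of_dist_le_mul fun z z' => ?_
    rw [dist_eq_norm, dist_eq_norm]
    exact F_lip hp hD z z'
  exact norm_fderiv_le_of_lipschitz ℝ h

/-! ### the derivative is triangular -/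

theorem ext_add {N : ℕ} (z : E N) (k : Fin N) (s : ℝ) (i : ℕ) :
    ext (z + s • EuclideanSpace.single k (1 : ℝ)) i =
      if i = k then ext z i + s else ext z i := by
  by_cases h : i < N
  · rw [ext_lt _ h, ext_lt _ h]
    by_cases h2 : i = k
    · rw [if_pos h2]
      have h3 : (⟨i, h⟩ : Fin N) = k := Fin.ext h2
      rw [h3]
      simp
    · rw [if_neg h2]
      have h3 : (⟨i, h⟩ : Fin N) ≠ k := fun h4 => h2 (by rw [← h4])
      simp [h3]
  · have h2 : i ≠ k := fun h2 => h (by rw [h2]; exact k.2)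
    rw [if_neg h2]
    unfold ext
    rw [dif_neg h, dif_neg h]

theorem fderiv_single {N : ℕ} (z : E N) (k j : Fin N) (c : ℝ)
    (h : HasDerivAt (fun s : ℝ => X p (ext (z + s • EuclideanSpace.single k (1 : ℝ))) j) c 0) :
    fderiv ℝ (F p N) z (EuclideanSpace.single k 1) j = c := by
  have h1 : HasFDerivAt (F p N) (fderiv ℝ (F p N) z) z :=
    ((F_smooth N).differentiable (by norm_num) z).hasFDerivAt
  have h2 : HasDerivAt (fun s : ℝ => F p N (z + s • EuclideanSpace.single k (1 : ℝ)))
      (fderiv ℝ (F p N) z (EuclideanSpace.single k 1)) 0 := by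
    have h3 : HasDerivAt (fun s : ℝ => z + s • EuclideanSpace.single k (1 : ℝ))
        (EuclideanSpace.single k (1 : ℝ)) 0 := by
      have := ((hasDerivAt_id (0 : ℝ)).smul_const (EuclideanSpace.single k (1 : ℝ))).const_add z
      simpa using this
    have h4 : HasFDerivAt (F p N) (fderiv ℝ (F p N) z)
        (z + (0 : ℝ) • EuclideanSpace.single k (1 : ℝ)) := by simpa using h1
    exact h4.comp_hasDerivAt (0 : ℝ) h3
  have h5 : HasDerivAt (fun s : ℝ => F p N (z + s • EuclideanSpace.single k (1 : ℝ)) j)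
      (fderiv ℝ (F p N) z (EuclideanSpace.single k 1) j) 0 := by
    exact (EuclideanSpace.proj j : EuclideanSpace ℝ (Fin N) →L[ℝ] ℝ).hasFDerivAt.comp_hasDerivAt
      (0 : ℝ) h2
  exact h5.unique h

theorem fderiv_gt {N : ℕ} (z : E N) (k j : Fin N) (hjk : j < k) :
    fderiv ℝ (F p N) z (EuclideanSpace.single k 1) j = 0 := by
  refine fderiv_single z k j 0 ?_
  have h : (fun s : ℝ => X p (ext (z + s • EuclideanSpace.single k (1 : ℝ))) j) =
      fun _ => X p (ext z) j := by
    funext s
    refine X_congr fun i hi => ?_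
    rw [ext_add, if_neg]
    have : (j : ℕ) < k := hjk
    omega
  rw [h]
  exact hasDerivAt_const _ _

theorem fderiv_diag {N : ℕ} (z : E N) (j : Fin N) :
    fderiv ℝ (F p N) z (EuclideanSpace.single j 1) j = Hc p (ext z) j * cos (ext z j) := by
  refine fderiv_single z j j _ ?_
  have h : (fun s : ℝ => X p (ext (z + s • EuclideanSpace.single j (1 : ℝ))) j) =
      fun s => Gc p (ext z) j + Hc p (ext z) j * sin (ext z j + s) := by
    funext s
    have h1 : ∀ i < (j : ℕ), ext (z + s • EuclideanSpace.single j (1 : ℝ)) i = ext z i := by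
      intro i hi
      rw [ext_add, if_neg (by omega)]
    rw [X_eq, Gc_congr h1, Hc_congr h1, ext_add, if_pos rfl]
  rw [h]
  have h2 : HasDerivAt (fun s : ℝ => sin (ext z j + s)) (cos (ext z j)) 0 := by
    have h3 := ((hasDerivAt_id (0 : ℝ)).const_add (ext z j)).sin
    simpa using h3
  exact (h2.const_mul _).const_add _

theorem det_fderiv {N : ℕ} (z : E N) : (fderiv ℝ (F p N) z).det =
    ∏ j : Fin N, (Hc p (ext z) j * cos (ext z j)) := by
  have h1 : (fderiv ℝ (F p N) z).det = LinearMap.det (fderiv ℝ (F p N) z : E N →ₗ[ℝ] E N) := rfl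
  rw [h1, ← LinearMap.det_toMatrix (EuclideanSpace.basisFun (Fin N) ℝ).toBasis]
  have h2 : ∀ i j, LinearMap.toMatrix (EuclideanSpace.basisFun (Fin N) ℝ).toBasis
      (EuclideanSpace.basisFun (Fin N) ℝ).toBasis (fderiv ℝ (F p N) z : E N →ₗ[ℝ] E N) i j =
      fderiv ℝ (F p N) z (EuclideanSpace.single j 1) i := by
    intro i j
    rw [LinearMap.toMatrix_apply]
    simp
  rw [Matrix.det_of_isLowerTriangular]
  · refine prod_congr rfl fun j _ => ?_
    rw [h2, fderiv_diag]
  · intro i j hij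
    rw [h2]
    exact fderiv_gt z j i hij

/-! ### the weight -/

/-- the exponents of the cosines -/
noncomputable def ee (p : ℕ → ℕ) (n j : ℕ) : ℕ :=
  if j % 2 = 0 then (if j / 2 < n then 2 else 1)
  else 3 + (if p (j / 2) < n then 1 else 0) +
    ((range n).filter (fun c => j / 2 < c ∧ p c = p (j / 2))).card

theorem prod_rho_own {f : ℕ → ℝ} (hp : ∀ i < n, i < p i ∧ p i ≤ n) :
    ∏ u ∈ range (n + 1), ∏ c ∈ (range u).filter (fun c => p c = u), f c = ∏ c ∈ range n, f c := by
  have h1 : ∀ c ∈ range n, p c ∈ range (n + 1) := by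
    intro c hc
    rw [mem_range] at hc ⊢
    have := hp c hc
    omega
  rw [← prod_fiberwise_of_maps_to h1]
  refine prod_congr rfl fun u hu => ?_
  rw [mem_range] at hu
  refine prod_congr ?_ fun _ _ => rfl
  ext c
  simp only [mem_filter, mem_range]
  constructor
  · rintro ⟨h2, h3⟩
    exact ⟨by omega, h3⟩
  · rintro ⟨h2, h3⟩
    have := (hp c h2).1
    exact ⟨by omega, h3⟩

theorem prod_rho_child {f : ℕ → ℝ} (hp : ∀ i < n, i < p i ∧ p i ≤ n) :
    ∏ u ∈ range n, ∏ c ∈ (range u).filter (fun c => p c = u), f c =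
      ∏ c ∈ range n, f c ^ (if p c < n then 1 else 0) := by
  have h0 := prod_rho_own (p := p) (n := n) (f := fun c => f c ^ (if p c < n then 1 else 0)) hp
  rw [← h0, prod_range_succ]
  have h1 : ∏ c ∈ (range n).filter (fun c => p c = n), f c ^ (if p c < n then 1 else 0) = 1 := by
    refine prod_eq_one fun c hc => ?_
    rw [mem_filter] at hc
    rw [if_neg (by omega), pow_zero]
  rw [h1, mul_one]
  refine prod_congr rfl fun u hu => prod_congr rfl fun c hc => ?_
  rw [mem_range] at hu
  rw [mem_filter] at hc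
  rw [if_pos (by omega), pow_one]

theorem prod_rho_sib {f : ℕ → ℝ} :
    ∏ u ∈ range n, ∏ c ∈ (range u).filter (fun c => p c = p u), f c =
      ∏ c ∈ range n, f c ^ ((range n).filter (fun u => c < u ∧ p u = p c)).card := by
  have h1 : ∀ u ∈ range n, ∏ c ∈ (range u).filter (fun c => p c = p u), f c =
      ∏ c ∈ range n, if c < u ∧ p c = p u then f c else 1 := by
    intro u hu
    rw [mem_range] at hu
    rw [← prod_filter]
    refine prod_congr ?_ fun _ _ => rfl
    ext c
    simp only [mem_filter, mem_range]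
    constructor
    · rintro ⟨h2, h3⟩
      exact ⟨by omega, h2, h3⟩
    · rintro ⟨h2, h3, h4⟩
      exact ⟨h3, h4⟩
  rw [prod_congr rfl h1, prod_comm]
  refine prod_congr rfl fun c _ => ?_
  rw [← prod_filter, prod_const]
  congr 2
  ext u
  simp only [mem_filter, mem_range]
  constructor
  · rintro ⟨h2, h3, h4⟩
    exact ⟨h2, h3, h4.symm⟩
  · rintro ⟨h2, h3, h4⟩
    exact ⟨h2, h3, h4.symm⟩

/-- the Jacobian is a product -/
theorem jac (hp : ∀ i < n, i < p i ∧ p i ≤ n) (t : ℕ → ℝ) :
    ∏ j ∈ range (2 * n + 1), (Hc p t j * cos (t j)) =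
      ∏ j ∈ range (2 * n + 1), cos (t j) ^ ee p n j := by
  rw [prod_parity, prod_parity]
  have h1 : ∀ u, Hc p t (2 * u) = rho p t u u ^ 2 := by
    intro u
    unfold Hc
    rw [if_pos (by omega), show 2 * u / 2 = u by omega]
  have h2 : ∀ u, Hc p t (2 * u + 1) = rho p t u u * cos (t (2 * u)) * rho p t (p u) u := by
    intro u
    unfold Hc
    rw [if_neg (by omega), show (2 * u + 1) / 2 = u by omega]
  have h3 : ∀ u, ee p n (2 * u) = if u < n then 2 else 1 := by
    intro u
    unfold ee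
    rw [if_pos (by omega), show 2 * u / 2 = u by omega]
  have h4 : ∀ u, ee p n (2 * u + 1) = 3 + (if p u < n then 1 else 0) +
      ((range n).filter (fun c => u < c ∧ p c = p u)).card := by
    intro u
    unfold ee
    rw [if_neg (by omega), show (2 * u + 1) / 2 = u by omega]
  simp only [h1, h2, h3, h4]
  have e1 : ∏ u ∈ range (n + 1), (rho p t u u ^ 2 * cos (t (2 * u))) =
      (∏ c ∈ range n, cos (t (2 * c + 1))) ^ 2 * ∏ u ∈ range (n + 1), cos (t (2 * u)) := by
    rw [prod_mul_distrib, prod_pow]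
    congr 2
    exact prod_rho_own (f := fun c => cos (t (2 * c + 1))) hp
  have e2 : ∏ u ∈ range n, (rho p t u u * cos (t (2 * u)) * rho p t (p u) u * cos (t (2 * u + 1))) =
      (∏ c ∈ range n, cos (t (2 * c + 1)) ^ (if p c < n then 1 else 0)) *
      (∏ u ∈ range n, cos (t (2 * u))) *
      (∏ c ∈ range n, cos (t (2 * c + 1)) ^ ((range n).filter (fun u => c < u ∧ p u = p c)).card) *
      ∏ c ∈ range n, cos (t (2 * c + 1)) := by
    rw [prod_mul_distrib, prod_mul_distrib, prod_mul_distrib]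
    have h5 := prod_rho_child (f := fun c => cos (t (2 * c + 1))) hp
    have h6 := prod_rho_sib (p := p) (n := n) (f := fun c => cos (t (2 * c + 1)))
    rw [← h5, ← h6]
    rfl
  have e3 : ∏ u ∈ range (n + 1), cos (t (2 * u)) ^ (if u < n then 2 else 1) =
      (∏ u ∈ range n, cos (t (2 * u))) * ∏ u ∈ range (n + 1), cos (t (2 * u)) := by
    rw [prod_range_succ, prod_range_succ, if_neg (lt_irrefl n), pow_one]
    have h7 : ∏ u ∈ range n, cos (t (2 * u)) ^ (if u < n then 2 else 1) =
        (∏ u ∈ range n, cos (t (2 * u))) ^ 2 := by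
      rw [← prod_pow]
      refine prod_congr rfl fun u hu => ?_
      rw [mem_range] at hu
      rw [if_pos hu]
    rw [h7]
    ring
  have e4 : ∏ c ∈ range n, cos (t (2 * c + 1)) ^ (3 + (if p c < n then 1 else 0) +
      ((range n).filter (fun c' => c < c' ∧ p c' = p c)).card) =
      (∏ c ∈ range n, cos (t (2 * c + 1))) ^ 3 *
      (∏ c ∈ range n, cos (t (2 * c + 1)) ^ (if p c < n then 1 else 0)) *
      (∏ c ∈ range n, cos (t (2 * c + 1)) ^ ((range n).filter (fun u => c < u ∧ p u = p c)).card) := by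
    rw [← prod_pow, ← prod_mul_distrib, ← prod_mul_distrib]
    refine prod_congr rfl fun c _ => ?_
    rw [pow_add, pow_add]
  rw [e1, e2, e3, e4]
  ring

/-- the one dimensional weights -/
noncomputable def wt (e : ℕ) (s : ℝ) : ℝ := I.indicator (fun s => cos s ^ e) s

/-- the product weight -/
noncomputable def W (p : ℕ → ℕ) (n : ℕ) (z : E (2 * n + 1)) : ℝ :=
  ∏ j : Fin (2 * n + 1), wt (ee p n j) (z j)

/-- the box -/
def box (N : ℕ) : Set (E N) := {z | ∀ k : Fin N, z k ∈ I}

theorem box_meas (N : ℕ) : MeasurableSet (box N) := by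
  have : box N = ⋂ k : Fin N, (fun z : E N => z k) ⁻¹' I := by
    ext z
    simp [box]
  rw [this]
  refine MeasurableSet.iInter fun k => ?_
  have hc : Continuous fun z : E N => z k := by fun_prop
  exact hc.measurable measurableSet_Ioo

theorem ext_box {N : ℕ} {z : E N} (h : z ∈ box N) : ∀ j < N, ext z j ∈ I := by
  intro j hj
  rw [ext_lt z hj]
  exact h _

theorem W_box (hp : ∀ i < n, i < p i ∧ p i ≤ n) {z : E (2 * n + 1)} (h : z ∈ box (2 * n + 1)) :
    |(fderiv ℝ (F p (2 * n + 1)) z).det| = W p n z := by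
  have h0 : ∀ j : Fin (2 * n + 1), 0 ≤ Hc p (ext z) j * cos (ext z j) := by
    intro j
    have h1 := ext_box h
    exact mul_nonneg (Hc_pos fun i hi => h1 i (by omega)).le (cos_pos_I (h1 j j.2)).le
  rw [det_fderiv, abs_of_nonneg (prod_nonneg fun j _ => h0 j),
    Fin.prod_univ_eq_prod_range (fun j => Hc p (ext z) j * cos (ext z j)), jac hp,
    ← Fin.prod_univ_eq_prod_range (fun j => cos (ext z j) ^ ee p n j)]
  unfold W wt
  refine prod_congr rfl fun j _ => ?_
  rw [Set.indicator_of_mem (h j), ext_fin]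

theorem W_not_box {z : E (2 * n + 1)} (h : z ∉ box (2 * n + 1)) : W p n z = 0 := by
  have : ∃ k : Fin (2 * n + 1), z k ∉ I := by
    by_contra h1
    push_neg at h1
    exact h h1
  obtain ⟨k, hk⟩ := this
  unfold W
  refine prod_eq_zero (mem_univ k) ?_
  unfold wt
  exact Set.indicator_of_notMem hk _

/-! ### the body -/

/-- strict contractions -/
def Kint (p : ℕ → ℕ) (n : ℕ) : Set (E (2 * n + 1)) := {x | Strict p n (ext x)}

/-- contractions -/
def Kb (p : ℕ → ℕ) (n : ℕ) : Set (E (2 * n + 1)) :=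
  {x | ∀ v : ℕ → ℝ, |QF p n (ext x) v| ≤ N2 n v}

theorem image_box (hp : ∀ i < n, i < p i ∧ p i ≤ n) :
    F p (2 * n + 1) '' box (2 * n + 1) = Kint p n := by
  ext x
  constructor
  · rintro ⟨z, hz, rfl⟩
    refine strict_of hp (t := ext z) (fun j hj => ext_box hz j hj) fun j hj => ?_
    rw [ext_F z hj]
  · intro hx
    obtain ⟨t, ht, htx⟩ := exists_param hp hx (2 * n + 1) le_rfl
    obtain ⟨z, hz⟩ : ∃ z : E (2 * n + 1), z = WithLp.toLp 2 fun j : Fin (2 * n + 1) => t j :=
      ⟨_, rfl⟩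
    have h1 : ∀ j < 2 * n + 1, ext z j = t j := by
      intro j hj
      rw [ext_lt z hj, hz]
    refine ⟨z, fun k => ?_, ?_⟩
    · rw [← ext_fin, h1 k k.2]
      exact ht k k.2
    · ext j
      rw [F_apply, X_congr (t' := t) fun i hi => h1 i (by omega), htx j j.2, ext_fin]

theorem inj_box : Set.InjOn (F p (2 * n + 1)) (box (2 * n + 1)) := by
  intro z hz z' hz' h
  have h1 := t_unique (p := p) (t := ext z) (t' := ext z') (N := 2 * n + 1)
    (fun i hi => ext_box hz i hi) (fun i hi => ext_box hz' i hi) (fun j hj => by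
      rw [← ext_F z hj, ← ext_F z' hj, h])
  ext j
  rw [← ext_fin, ← ext_fin]
  exact h1 j j.2

/-- change of variables -/
theorem chg0 (hp : ∀ i < n, i < p i ∧ p i ≤ n) (g : E (2 * n + 1) → ℝ) :
    ∫ x in Kint p n, g x = ∫ z, g (F p (2 * n + 1) z) * W p n z := by
  rw [← image_box hp, integral_image_eq_integral_abs_det_fderiv_smul volume (box_meas _)
    (fun x _ => (((F_smooth (p := p) (2 * n + 1)).differentiable (by norm_num)
      x).hasFDerivAt).hasFDerivWithinAt) inj_box g,
    ← integral_indicator (box_meas _)]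
  congr 1
  funext z
  by_cases hz : z ∈ box (2 * n + 1)
  · rw [Set.indicator_of_mem hz, W_box hp hz, smul_eq_mul, mul_comm]
  · rw [Set.indicator_of_notMem hz, W_not_box hz, mul_zero]

end Pool.Agent.V7H40.TR
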