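import Pool.Agent.V7H40.TR.Map

/-!
# Trees: means with respect to the product weight
-/

set_option autoImplicit false

namespace Pool.Agent.V7H40.TR

open Finset Real MeasureTheory
open scoped ENNReal

variable {p : ℕ → ℕ} {n : ℕ}

/-! ### dimension one -/

theorem wt_nonneg (e : ℕ) (s : ℝ) : 0 ≤ wt e s := by
  unfold wt
  refine Set.indicator_nonneg (fun s hs => ?_) s
  exact pow_nonneg (cos_pos_I hs).le e

theorem wt_le (e : ℕ) (s : ℝ) : wt e s ≤ I.indicator (fun _ => (1 : ℝ)) s := by
  unfold wt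
  by_cases hs : s ∈ I
  · rw [Set.indicator_of_mem hs, Set.indicator_of_mem hs]
    exact pow_le_one₀ (cos_pos_I hs).le (cos_le_one s)
  · rw [Set.indicator_of_notMem hs, Set.indicator_of_notMem hs]

theorem I_meas : MeasurableSet I := measurableSet_Ioo

theorem wt_meas (e : ℕ) : Measurable (wt e) :=
  ((measurable_cos.pow_const e).indicator I_meas)

theorem wt_even (e : ℕ) (s : ℝ) : wt e (-s) = wt e s := by
  unfold wt
  have h : -s ∈ I ↔ s ∈ I := by
    unfold I
    rw [Set.mem_Ioo, Set.mem_Ioo]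
    constructor <;> rintro ⟨h1, h2⟩ <;> constructor <;> linarith
  by_cases hs : s ∈ I
  · rw [Set.indicator_of_mem hs, Set.indicator_of_mem (h.2 hs), cos_neg]
  · rw [Set.indicator_of_notMem hs, Set.indicator_of_notMem (fun h1 => hs (h.1 h1))]

theorem int_wt (e : ℕ) (h : ℝ → ℝ) :
    ∫ s, h s * wt e s = ∫ s in (-(π / 2))..(π / 2), h s * cos s ^ e := by
  rw [intervalIntegral.integral_of_le (by linarith [pi_pos]), integral_Ioc_eq_integral_Ioo,
    ← integral_indicator measurableSet_Ioo]
  congr 1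
  funext s
  unfold wt I
  by_cases hs : s ∈ Set.Ioo (-(π / 2)) (π / 2)
  · rw [Set.indicator_of_mem hs, Set.indicator_of_mem hs]
  · rw [Set.indicator_of_notMem hs, Set.indicator_of_notMem hs, mul_zero]

/-- the integrals of the powers of the cosine -/
noncomputable def Ci (e : ℕ) : ℝ := ∫ s in (-(π / 2))..(π / 2), cos s ^ e

theorem int_wt1 (e : ℕ) : ∫ s, wt e s = Ci e := by
  have := int_wt e fun _ => 1
  simpa [Ci] using this

theorem int_cos (e k : ℕ) : ∫ s, cos s ^ k * wt e s = Ci (e + k) := by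
  rw [int_wt]
  unfold Ci
  congr 1
  funext s
  rw [← pow_add, add_comm]

theorem Ci_succ (e : ℕ) : Ci (e + 2) = (e + 1) / (e + 2) * Ci e := by
  unfold Ci
  rw [integral_cos_pow, cos_neg, cos_pi_div_two]
  simp

theorem Ci_pos (e : ℕ) : 0 < Ci e := by
  unfold Ci
  refine intervalIntegral.intervalIntegral_pos_of_pos_on ?_ ?_ (by linarith [pi_pos])
  · exact (continuous_cos.pow e).intervalIntegrable _ _
  · intro s hs
    exact pow_pos (cos_pos_I hs) e

/-- mean in dimension one -/
noncomputable def M1 (e : ℕ) (h : ℝ → ℝ) : ℝ := (∫ s, h s * wt e s) / ∫ s, wt e s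

theorem M1_cos2 (e : ℕ) : M1 e (fun s => cos s ^ 2) = (e + 1) / (e + 2) := by
  unfold M1
  rw [int_cos, int_wt1, Ci_succ]
  have := (Ci_pos e).ne'
  field_simp

theorem M1_cos4 (e : ℕ) : M1 e (fun s => cos s ^ 4) = (e + 1) * (e + 3) / ((e + 2) * (e + 4)) := by
  unfold M1
  rw [int_cos, int_wt1, show e + 4 = (e + 2) + 2 by ring, Ci_succ, Ci_succ]
  have := (Ci_pos e).ne'
  push_cast
  field_simp
  ring

theorem wt_int {e : ℕ} {h : ℝ → ℝ} (hc : Continuous h) : Integrable fun s => h s * wt e s := by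
  have h1 : (fun s => h s * wt e s) = I.indicator fun s => h s * cos s ^ e := by
    funext s
    unfold wt
    by_cases hs : s ∈ I
    · rw [Set.indicator_of_mem hs, Set.indicator_of_mem hs]
    · rw [Set.indicator_of_notMem hs, Set.indicator_of_notMem hs, mul_zero]
  rw [h1, integrable_indicator_iff I_meas]
  have h2 : Continuous fun s => h s * cos s ^ e := by fun_prop
  exact (h2.integrableOn_Icc (a := -(π / 2)) (b := π / 2)).mono_set Set.Ioo_subset_Icc_self

theorem M1_lin {e : ℕ} {f g : ℝ → ℝ} (hf : Continuous f) (hg : Continuous g) (a b : ℝ) :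
    M1 e (fun s => a * f s + b * g s) = a * M1 e f + b * M1 e g := by
  unfold M1
  have h1 : (fun s => (a * f s + b * g s) * wt e s) =
      fun s => a * (f s * wt e s) + b * (g s * wt e s) := by
    funext s
    ring
  rw [h1, integral_add ((wt_int hf).const_mul a) ((wt_int hg).const_mul b), integral_const_mul,
    integral_const_mul]
  ring

theorem M1_one (e : ℕ) : M1 e (fun _ => 1) = 1 := by
  unfold M1
  simp only [one_mul]
  rw [int_wt1]
  exact div_self (Ci_pos e).ne'

theorem M1_sin2 (e : ℕ) : M1 e (fun s => sin s ^ 2) = 1 / (e + 2) := by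
  have h : (fun s : ℝ => sin s ^ 2) = fun s => (1 : ℝ) * (fun _ => (1 : ℝ)) s +
      (-1) * (fun s => cos s ^ 2) s := by
    funext s
    have := sin_sq_add_cos_sq s
    linarith
  rw [h, M1_lin continuous_const (by fun_prop), M1_one, M1_cos2]
  field_simp
  ring

theorem M1_sin4 (e : ℕ) : M1 e (fun s => sin s ^ 4) = 3 / ((e + 2) * (e + 4)) := by
  have h : (fun s : ℝ => sin s ^ 4) = fun s => (1 : ℝ) * (fun s => 1 * (fun _ => (1 : ℝ)) s +
      (-2) * (fun s => cos s ^ 2) s) s + 1 * (fun s => cos s ^ 4) s := by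
    funext s
    have := sin_sq_add_cos_sq s
    have h2 : sin s ^ 2 = 1 - cos s ^ 2 := by linarith
    have h3 : sin s ^ 4 = (sin s ^ 2) ^ 2 := by ring
    rw [h3, h2]
    ring
  rw [h, M1_lin (f := fun s => 1 * (fun _ => (1 : ℝ)) s + (-2) * (fun s => cos s ^ 2) s)
    (by fun_prop) (by fun_prop), M1_lin continuous_const (by fun_prop), M1_one, M1_cos2, M1_cos4]
  field_simp
  ring

/-! ### products -/

/-- integrals of products -/
theorem int_prod (N : ℕ) (f : Fin N → ℝ → ℝ) :
    ∫ z : E N, ∏ j, f j (z j) = ∏ j, ∫ s, f j s := by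
  rw [← (PiLp.volume_preserving_toLp (Fin N)).integral_comp
    (MeasurableEquiv.toLp 2 (Fin N → ℝ)).measurableEmbedding]
  exact integral_fintype_prod_volume_eq_prod f

/-- means with respect to the product weight -/
noncomputable def EE (p : ℕ → ℕ) (n : ℕ) (g : E (2 * n + 1) → ℝ) : ℝ :=
  (∫ z, g z * W p n z) / ∫ z, W p n z

theorem W_nonneg (z : E (2 * n + 1)) : 0 ≤ W p n z := prod_nonneg fun _ _ => wt_nonneg _ _

theorem int_W : ∫ z, W p n z = ∏ j : Fin (2 * n + 1), Ci (ee p n j) := by
  unfold W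
  rw [int_prod]
  exact prod_congr rfl fun j _ => int_wt1 _

theorem int_W_pos : 0 < ∫ z, W p n z := by
  rw [int_W]
  exact prod_pos fun _ _ => Ci_pos _

/-- product formula -/
theorem EE_prod (S : Finset ℕ) (hS : ∀ j ∈ S, j < 2 * n + 1) (h : ℕ → ℝ → ℝ) :
    EE p n (fun z => ∏ j ∈ S, h j (ext z j)) = ∏ j ∈ S, M1 (ee p n j) (h j) := by
  have h1 : ∀ g : ℕ → ℝ, ∏ j ∈ S, g j = ∏ j : Fin (2 * n + 1), if (j : ℕ) ∈ S then g j else 1 := by
    intro g
    rw [Fin.prod_univ_eq_prod_range (fun j => if j ∈ S then g j else 1), prod_ite_mem]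
    refine prod_congr ?_ fun _ _ => rfl
    ext j
    simp only [mem_inter, mem_range]
    exact ⟨fun hj => ⟨hS j hj, hj⟩, fun hj => hj.2⟩
  unfold EE
  have h2 : (fun z : E (2 * n + 1) => (∏ j ∈ S, h j (ext z j)) * W p n z) = fun z =>
      ∏ j : Fin (2 * n + 1), ((if (j : ℕ) ∈ S then h j (z j) else 1) * wt (ee p n j) (z j)) := by
    funext z
    rw [h1, prod_mul_distrib]
    unfold W
    congr 1
    refine prod_congr rfl fun j _ => ?_
    rw [ext_fin]
  have h3 := int_prod (2 * n + 1) fun (j : Fin (2 * n + 1)) s =>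
    (if (j : ℕ) ∈ S then h j s else 1) * wt (ee p n j) s
  rw [h2, h3, int_W, ← prod_div_distrib, h1]
  refine prod_congr rfl fun j _ => ?_
  by_cases hj : (j : ℕ) ∈ S
  · simp only [hj, if_true]
    unfold M1
    rw [int_wt1]
  · simp only [hj, if_false, one_mul]
    rw [int_wt1]
    exact div_self (Ci_pos _).ne'

/-- integrability -/
theorem W_int {g : E (2 * n + 1) → ℝ} (hg : Continuous g) :
    Integrable fun z => g z * W p n z := by
  have hc : IsCompact {z : E (2 * n + 1) | ∀ k, z k ∈ Set.Icc (-(π / 2)) (π / 2)} := by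
    have h1 : IsCompact (Set.univ.pi fun _ : Fin (2 * n + 1) => Set.Icc (-(π / 2)) (π / 2)) :=
      isCompact_univ_pi fun _ => isCompact_Icc
    have h2 : Continuous (WithLp.toLp 2 : (Fin (2 * n + 1) → ℝ) → E (2 * n + 1)) :=
      PiLp.continuous_toLp 2 _
    convert h1.image h2 using 1
    ext z
    constructor
    · intro hz
      exact ⟨fun k => z k, fun k _ => hz k, rfl⟩
    · rintro ⟨y, hy, rfl⟩ k
      exact hy k (Set.mem_univ k)
  have hmeas : Measurable (W p n) := by
    unfold W
    refine Finset.measurable_fun_prod _ fun j _ => ?_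
    have : Continuous fun z : E (2 * n + 1) => z j := by fun_prop
    exact (wt_meas _).comp this.measurable
  obtain ⟨B, hB⟩ := hc.exists_bound_of_continuousOn (f := g) hg.continuousOn
  have h1 : Integrable (({z : E (2 * n + 1) | ∀ k, z k ∈ Set.Icc (-(π / 2)) (π / 2)}).indicator
      fun _ => B) := by
    rw [integrable_indicator_iff hc.measurableSet]
    exact integrableOn_const hc.measure_lt_top.ne
  refine h1.mono' (hg.measurable.mul hmeas).aestronglyMeasurable
    (Filter.Eventually.of_forall fun z => ?_)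
  by_cases hz : z ∈ box (2 * n + 1)
  · have hz' : z ∈ {z : E (2 * n + 1) | ∀ k, z k ∈ Set.Icc (-(π / 2)) (π / 2)} :=
      fun k => Set.Ioo_subset_Icc_self (hz k)
    rw [Set.indicator_of_mem hz', norm_mul, Real.norm_of_nonneg (W_nonneg z)]
    have h2 := hB z hz'
    have h3 : W p n z ≤ 1 := by
      unfold W
      refine prod_le_one (fun j _ => wt_nonneg _ _) fun j _ => ?_
      refine (wt_le _ _).trans ?_
      exact Set.indicator_le_self' (fun _ _ => zero_le_one) _
    calc ‖g z‖ * W p n z ≤ B * 1 := mul_le_mul h2 h3 (W_nonneg z) ((norm_nonneg _).trans h2)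
      _ = B := mul_one B
  · rw [W_not_box hz, mul_zero, norm_zero]
    by_cases h4 : z ∈ {z : E (2 * n + 1) | ∀ k, z k ∈ Set.Icc (-(π / 2)) (π / 2)}
    · rw [Set.indicator_of_mem h4]
      exact (norm_nonneg _).trans (hB z h4)
    · rw [Set.indicator_of_notMem h4]

theorem EE_add {f g : E (2 * n + 1) → ℝ} (hf : Continuous f) (hg : Continuous g) :
    EE p n (fun z => f z + g z) = EE p n f + EE p n g := by
  unfold EE
  simp only [add_mul]
  rw [integral_add (W_int hf) (W_int hg), add_div]

theorem EE_smul (a : ℝ) (f : E (2 * n + 1) → ℝ) : EE p n (fun z => a * f z) = a * EE p n f := by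
  unfold EE
  simp only [mul_assoc]
  rw [integral_const_mul, mul_div_assoc]

theorem EE_sum {ι : Type*} (s : Finset ι) {f : ι → E (2 * n + 1) → ℝ} (hf : ∀ i, Continuous (f i)) :
    EE p n (fun z => ∑ i ∈ s, f i z) = ∑ i ∈ s, EE p n (f i) := by
  unfold EE
  simp only [sum_mul]
  rw [integral_finset_sum _ fun i _ => W_int (hf i), sum_div]

theorem EE_nonneg {f : E (2 * n + 1) → ℝ} (hf : ∀ z, 0 ≤ f z) : 0 ≤ EE p n f :=
  div_nonneg (integral_nonneg fun z => mul_nonneg (hf z) (W_nonneg z)) int_W_pos.le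

/-! ### sign changes -/

/-- change of the sign of one coordinate -/
noncomputable def flip (N : ℕ) (k : Fin N) : E N ≃ₗᵢ[ℝ] E N :=
  LinearIsometryEquiv.piLpCongrRight 2 fun j =>
    if j = k then LinearIsometryEquiv.neg ℝ else LinearIsometryEquiv.refl ℝ ℝ

theorem flip_apply {N : ℕ} (k : Fin N) (z : E N) (j : Fin N) :
    flip N k z j = if j = k then -z j else z j := by
  unfold flip
  rw [LinearIsometryEquiv.piLpCongrRight_apply]
  split_ifs with h <;> simp [h]

theorem W_flip (k : Fin (2 * n + 1)) (z : E (2 * n + 1)) : W p n (flip _ k z) = W p n z := by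
  unfold W
  refine prod_congr rfl fun j _ => ?_
  rw [flip_apply]
  split_ifs
  · exact wt_even _ _
  · rfl

theorem EE_flip (k : Fin (2 * n + 1)) (g : E (2 * n + 1) → ℝ) :
    EE p n (fun z => g (flip _ k z)) = EE p n g := by
  unfold EE
  congr 1
  have h := (flip (2 * n + 1) k).measurePreserving.integral_comp'
    (f := (flip (2 * n + 1) k).toMeasurableEquiv) fun z => g z * W p n z
  rw [← h]
  refine integral_congr_ae (Filter.Eventually.of_forall fun z => ?_)
  change g (flip _ k z) * W p n z = g (flip _ k z) * W p n (flip _ k z)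
  rw [W_flip]

theorem EE_odd (k : Fin (2 * n + 1)) (g : E (2 * n + 1) → ℝ) (h : ∀ z, g (flip _ k z) = -g z) :
    EE p n g = 0 := by
  have h1 := EE_flip (p := p) k g
  simp only [h] at h1
  have h2 : EE p n (fun z => -g z) = -EE p n g := by
    have := EE_smul (p := p) (n := n) (-1) g
    simpa using this
  rw [h2] at h1
  linarith

end Pool.Agent.V7H40.TR
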